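import Pool.Agent.HU26.Defs
import Mathlib

/-!
Fourier coefficients of holomorphic functions on circles.
-/

set_option autoImplicit false

open Complex Metric Set Filter Topology MeasureTheory
open scoped ComplexConjugate Real

namespace Pool.Agent.HS85

open Pool.Agent.HU26 (FC mean pt norm_pt pt_mem_ball)

/-- Taylor coefficient at the origin -/
noncomputable def co (F : ℂ → ℂ) (n : ℕ) : ℂ := iteratedDeriv n F 0 / n.factorial

theorem pt_eq_circleMap (t x : ℝ) : pt t x = circleMap 0 t x := by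
  unfold pt circleMap
  rw [zero_add]

theorem integral_shift {u : ℝ → ℂ} (hu : Function.Periodic u (2 * π)) :
    ∫ x in (-π)..π, u x = ∫ x in (0:ℝ)..(2 * π), u x := by
  have h1 := hu.intervalIntegral_add_eq (-π) 0
  rw [zero_add] at h1
  rw [← h1]
  congr 1
  ring

theorem fc_nat {F : ℂ → ℂ} {R : ℝ} (hF : DifferentiableOn ℂ F (ball 0 R)) {t : ℝ} (ht : t ∈ Ioo 0 R)
    (n : ℕ) : FC (fun x => F (pt t x)) n = co F n * t ^ n := by
  have hsub : closedBall (0:ℂ) t ⊆ ball 0 R := closedBall_subset_ball ht.2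
  have h1 := (hF.mono hsub).circleIntegral_one_div_sub_center_pow_smul ht.1 n
  unfold FC
  have hper : Function.Periodic (fun x : ℝ => cexp (-(((n:ℤ):ℂ) * x * I)) * F (pt t x)) (2 * π) := by
    intro x
    simp only
    have e1 : cexp (-(((n:ℤ):ℂ) * ((x + 2 * π : ℝ):ℂ) * I)) = cexp (-(((n:ℤ):ℂ) * x * I)) := by
      rw [Complex.exp_eq_exp_iff_exists_int]
      exact ⟨-n, by push_cast; ring⟩
    have e2 : pt t (x + 2 * π) = pt t x := by
      unfold pt
      congr 1
      rw [Complex.exp_eq_exp_iff_exists_int]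
      exact ⟨1, by push_cast; ring⟩
    rw [e1, e2]
  rw [integral_shift hper]
  have h2 : (∮ z in C(0, t), (1 / (z - 0) ^ (n + 1)) • F z) =
      I / t ^ n * ∫ x in (0:ℝ)..(2 * π), cexp (-(((n:ℤ):ℂ) * x * I)) * F (pt t x) := by
    unfold circleIntegral
    rw [← intervalIntegral.integral_const_mul]
    apply intervalIntegral.integral_congr
    intro x _
    simp only [smul_eq_mul, deriv_circleMap, sub_zero]
    rw [← pt_eq_circleMap]
    have hpt : pt t x = t * cexp (x * I) := rfl
    have ht0 : (t:ℂ) ≠ 0 := by exact_mod_cast ht.1.ne'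
    have he : cexp (x * I) ≠ 0 := Complex.exp_ne_zero _
    have hexp : cexp (-(((n:ℤ):ℂ) * x * I)) = (cexp (x * I) ^ n)⁻¹ := by
      rw [← Complex.exp_nat_mul, ← Complex.exp_neg]
      congr 1
      push_cast; ring
    rw [hexp]
    generalize F (pt t x) = y
    rw [hpt]
    generalize cexp (x * I) = e at he
    field_simp
    ring
  rw [h2] at h1
  have hI : (I:ℂ) ≠ 0 := Complex.I_ne_zero
  have hpi : (π:ℂ) ≠ 0 := by exact_mod_cast Real.pi_ne_zero
  have ht0 : (t:ℂ) ≠ 0 := by exact_mod_cast ht.1.ne'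
  have h3 : ∫ x in (0:ℝ)..(2 * π), cexp (-(((n:ℤ):ℂ) * x * I)) * F (pt t x) =
      2 * π * t ^ n * iteratedDeriv n F 0 / n.factorial := by
    have hfac : ((n.factorial : ℕ) : ℂ) ≠ 0 := by exact_mod_cast n.factorial_ne_zero
    rw [smul_eq_mul] at h1
    generalize (∫ x in (0:ℝ)..(2 * π), cexp (-(((n:ℤ):ℂ) * x * I)) * F (pt t x)) = J at h1 ⊢
    have h4 : J = (t ^ n / I) * (I / t ^ n * J) := by field_simp
    rw [h4, h1]
    field_simp
  rw [h3]
  unfold co
  push_cast
  field_simp

theorem fc_neg {F : ℂ → ℂ} {R : ℝ} (hF : DifferentiableOn ℂ F (ball 0 R)) {t : ℝ} (ht : t ∈ Ioo 0 R)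
    (n : ℕ) : FC (fun x => F (pt t x)) (-(n + 1 : ℕ)) = 0 := by
  have hsub : closedBall (0:ℂ) t ⊆ ball 0 R := closedBall_subset_ball ht.2
  have hG : DifferentiableOn ℂ (fun z => z ^ n * F z) (closedBall 0 t) :=
    (differentiableOn_id.pow n).mul (hF.mono hsub)
  have h1 : (∮ z in C(0, t), z ^ n * F z) = 0 :=
    circleIntegral_eq_zero_of_differentiable_on_off_countable ht.1.le countable_empty
      hG.continuousOn (fun z hz => (hG z (ball_subset_closedBall hz.1)).differentiableAt
        (closedBall_mem_nhds_of_mem hz.1))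
  unfold FC
  have hper : Function.Periodic (fun x : ℝ => cexp (-(((-(n + 1 : ℕ) : ℤ) : ℂ) * x * I)) *
      F (pt t x)) (2 * π) := by
    intro x
    simp only
    have e1 : cexp (-(((-(n + 1 : ℕ) : ℤ) : ℂ) * ((x + 2 * π : ℝ):ℂ) * I)) =
        cexp (-(((-(n + 1 : ℕ) : ℤ) : ℂ) * x * I)) := by
      rw [Complex.exp_eq_exp_iff_exists_int]
      exact ⟨n + 1, by push_cast; ring⟩
    have e2 : pt t (x + 2 * π) = pt t x := by
      unfold pt
      congr 1
      rw [Complex.exp_eq_exp_iff_exists_int]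
      exact ⟨1, by push_cast; ring⟩
    rw [e1, e2]
  rw [integral_shift hper]
  have h2 : (∮ z in C(0, t), z ^ n * F z) =
      I * t ^ (n + 1) * ∫ x in (0:ℝ)..(2 * π), cexp (-(((-(n + 1 : ℕ) : ℤ) : ℂ) * x * I)) *
        F (pt t x) := by
    unfold circleIntegral
    rw [← intervalIntegral.integral_const_mul]
    apply intervalIntegral.integral_congr
    intro x _
    simp only [smul_eq_mul, deriv_circleMap]
    rw [← pt_eq_circleMap]
    have hpt : pt t x = t * cexp (x * I) := rfl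
    have hexp : cexp (-(((-(n + 1 : ℕ) : ℤ) : ℂ) * x * I)) = cexp (x * I) ^ (n + 1) := by
      rw [← Complex.exp_nat_mul]
      congr 1
      push_cast; ring
    rw [hexp]
    generalize F (pt t x) = y
    rw [hpt]
    ring
  rw [h2] at h1
  have ht0 : (t:ℂ) ≠ 0 := by exact_mod_cast ht.1.ne'
  rcases mul_eq_zero.mp h1 with h3 | h3
  · exfalso
    exact mul_ne_zero Complex.I_ne_zero (pow_ne_zero _ ht0) h3
  · rw [h3, mul_zero]

end Pool.Agent.HS85
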