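import Pool.Agent.HS85.FCoef
import Pool.Agent.HU26.Area
import Mathlib

/-!
Area inequality for Taylor coefficients.
-/

set_option autoImplicit false

open Complex Metric Set Filter Topology MeasureTheory
open scoped ComplexConjugate Real

namespace Pool.Agent.HS85

open Pool.Agent.HU26

theorem co_deriv (G : ℂ → ℂ) (m : ℕ) : co (deriv G) m = (m + 1) * co G (m + 1) := by
  unfold co
  rw [← iteratedDeriv_succ', Nat.factorial_succ]
  have : ((m.factorial : ℕ) : ℂ) ≠ 0 := by exact_mod_cast m.factorial_ne_zero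
  have h2 : ((m:ℂ) + 1) ≠ 0 := by exact_mod_cast Nat.succ_ne_zero m
  push_cast
  field_simp

/-- Bessel inequality for a holomorphic function on a circle. -/
theorem bessel_co {G : ℂ → ℂ} {R : ℝ} (hG : DifferentiableOn ℂ G (ball 0 R)) {t : ℝ}
    (ht : t ∈ Ioo 0 R) (K : ℕ) :
    ∑ m ∈ Finset.range K, ‖co G m‖ ^ 2 * t ^ (2 * m) ≤ mean fun x => ‖G (pt t x)‖ ^ 2 := by
  have hu : Continuous (fun x => G (pt t x)) := by
    have h1 : Continuous (fun x : ℝ => pt t x) := by unfold pt; fun_prop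
    exact hG.continuousOn.comp_continuous h1
      (fun x => pt_mem_ball x ⟨by linarith [ht.1, ht.2], ht.2⟩)
  have h2 := bessel hu ((Finset.range K).map Nat.castEmbedding)
  rw [Finset.sum_map] at h2
  refine le_trans (le_of_eq ?_) h2
  apply Finset.sum_congr rfl
  intro m _
  simp only [Nat.castEmbedding_apply]
  rw [fc_nat hG ht m, norm_mul, norm_pow, Complex.norm_real, Real.norm_of_nonneg ht.1.le]
  ring

theorem area_co {R : ℝ} {h g : ℂ → ℂ} (D : Har R h g) {M : ℝ}
    (hM : ∀ z ∈ ball (0:ℂ) 1, ‖hm h g z‖ ≤ M) {G : ℂ → ℂ} (hG : DifferentiableOn ℂ G (ball 0 R))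
    {c : ℝ} (hc : 0 ≤ c) (hGJ : ∀ z ∈ ball (0:ℂ) 1, c * ‖deriv G z‖ ^ 2 ≤ Jac h g z) (K : ℕ) :
    c * ∑ m ∈ Finset.range K, (m + 1) * ‖co G (m + 1)‖ ^ 2 ≤ M ^ 2 := by
  have hM0 : 0 ≤ M := (norm_nonneg _).trans (hM 0 (by simp))
  have hR := D.R1
  have hcG : ContinuousOn (fun z => ‖deriv G z‖ ^ 2) (ball 0 R) :=
    (hG.deriv isOpen_ball).continuousOn.norm.pow 2
  have hb : ball (0:ℂ) 1 ⊆ ball 0 R := ball_subset_ball hR.le
  have hcb : closedBall (0:ℂ) 1 ⊆ ball 0 R := closedBall_subset_ball hR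
  -- area of the image
  have hvol : ∫ z in ball (0 : ℂ) 1, Jac h g z ≤ π * M ^ 2 := by
    have h1 := cov D (fun _ => 1)
    simp only [one_mul] at h1
    rw [← h1]
    have h2 : hm h g '' ball (0:ℂ) 1 ⊆ closedBall 0 M := by
      rintro y ⟨z, hz, rfl⟩
      rw [mem_closedBall_zero_iff]
      exact hM z hz
    have h3 : ∫ y in hm h g '' ball (0 : ℂ) 1, (1:ℝ) ≤ ∫ y in closedBall (0:ℂ) M, (1:ℝ) := by
      apply setIntegral_mono_set
      · exact integrableOn_const (by
          rw [Complex.volume_closedBall]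
          exact ENNReal.mul_ne_top (ENNReal.pow_ne_top ENNReal.ofReal_ne_top) ENNReal.coe_ne_top)
      · filter_upwards with x using by simp
      · exact h2.eventuallyLE
    refine h3.trans ?_
    rw [setIntegral_const, smul_eq_mul, mul_one, measureReal_def, Complex.volume_closedBall,
      ENNReal.toReal_mul, ENNReal.toReal_pow, ENNReal.toReal_ofReal hM0]
    apply le_of_eq
    rw [mul_comm]
    rfl
  have hintJ : IntegrableOn (Jac h g) (ball (0:ℂ) 1) :=
    ((D.cJac.mono hcb).integrableOn_compact (isCompact_closedBall (0:ℂ) 1)).mono_set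
      ball_subset_closedBall
  have hintG : IntegrableOn (fun z => ‖deriv G z‖ ^ 2) (ball (0:ℂ) 1) :=
    ((hcG.mono hcb).integrableOn_compact (isCompact_closedBall (0:ℂ) 1)).mono_set
      ball_subset_closedBall
  have h4 : c * ∫ z in ball (0 : ℂ) 1, ‖deriv G z‖ ^ 2 ≤ π * M ^ 2 := by
    refine le_trans ?_ hvol
    rw [← integral_const_mul]
    exact setIntegral_mono_on (hintG.const_mul c) hintJ measurableSet_ball hGJ
  -- polar coordinates
  have h5 := polar D hcG
  have hcm : ContinuousOn (fun t => mean (fun x => ‖deriv G (pt t x)‖ ^ 2 * t)) (Ioo (-R) R) := by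
    apply continuousOn_mean (F := fun t x => ‖deriv G (pt t x)‖ ^ 2 * t)
    exact (hcG.comp continuous_pt.continuousOn (mapsTo_pt R)).mul (by fun_prop)
  have hii : IntervalIntegrable (fun t => mean (fun x => ‖deriv G (pt t x)‖ ^ 2 * t)) volume 0 1 := by
    apply ContinuousOn.intervalIntegrable
    rw [uIcc_of_le zero_le_one]
    exact hcm.mono (fun t ht => ⟨by linarith [ht.1], by linarith [ht.2]⟩)
  have hbe : ∀ t ∈ Icc (0:ℝ) 1,
      ∑ m ∈ Finset.range K, ‖co (deriv G) m‖ ^ 2 * t ^ (2 * m + 1) ≤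
        mean (fun x => ‖deriv G (pt t x)‖ ^ 2 * t) := by
    intro t ht
    have e1 : (mean fun x => ‖deriv G (pt t x)‖ ^ 2 * t) =
        t * mean (fun x => ‖deriv G (pt t x)‖ ^ 2) := by
      rw [← mean_const_mul]
      congr 1
      ext x; ring
    rw [e1]
    rcases eq_or_lt_of_le ht.1 with h0 | h0
    · rw [← h0, zero_mul]
      apply le_of_eq
      apply Finset.sum_eq_zero
      intro m _
      simp
    · have h6 := bessel_co (hG.deriv isOpen_ball) (t := t) ⟨h0, by linarith [ht.2]⟩ K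
      have h7 := mul_le_mul_of_nonneg_left h6 h0.le
      refine le_trans (le_of_eq ?_) h7
      rw [Finset.mul_sum]
      apply Finset.sum_congr rfl
      intro m _
      ring
  have h8 : ∫ t in (0:ℝ)..1, ∑ m ∈ Finset.range K, ‖co (deriv G) m‖ ^ 2 * t ^ (2 * m + 1) ≤
      ∫ t in (0:ℝ)..1, mean (fun x => ‖deriv G (pt t x)‖ ^ 2 * t) := by
    apply intervalIntegral.integral_mono_on zero_le_one _ hii hbe
    apply Continuous.intervalIntegrable
    fun_prop
  have h9 : ∫ t in (0:ℝ)..1, ∑ m ∈ Finset.range K, ‖co (deriv G) m‖ ^ 2 * t ^ (2 * m + 1) =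
      (∑ m ∈ Finset.range K, (m + 1) * ‖co G (m + 1)‖ ^ 2) / 2 := by
    rw [intervalIntegral.integral_finsetSum]
    · rw [Finset.sum_div]
      apply Finset.sum_congr rfl
      intro m _
      rw [intervalIntegral.integral_const_mul, integral_pow, co_deriv, norm_mul]
      have h10 : ‖((m:ℂ) + 1)‖ = m + 1 := by
        have : ((m:ℂ) + 1) = ((m + 1 : ℝ) : ℂ) := by push_cast; ring
        rw [this, Complex.norm_real, Real.norm_of_nonneg (by positivity)]
      rw [h10]
      push_cast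
      have h11 : (m:ℝ) + 1 ≠ 0 := by positivity
      field_simp
      ring
    · intro m _
      apply Continuous.intervalIntegrable
      fun_prop
  rw [h9] at h8
  rw [h5] at h8
  have hpi := Real.pi_pos
  have h12 : (∑ m ∈ Finset.range K, (m + 1) * ‖co G (m + 1)‖ ^ 2) / 2 * (2 * π) ≤
      ∫ z in ball (0 : ℂ) 1, ‖deriv G z‖ ^ 2 := by
    have h13 := mul_le_mul_of_nonneg_right h8 (by positivity : (0:ℝ) ≤ 2 * π)
    refine h13.trans (le_of_eq ?_)
    field_simp
  have h14 := mul_le_mul_of_nonneg_left h12 hc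
  have h15 : c * ((∑ m ∈ Finset.range K, (m + 1) * ‖co G (m + 1)‖ ^ 2) / 2 * (2 * π)) ≤ π * M ^ 2 :=
    h14.trans h4
  have h16 : π * (c * ∑ m ∈ Finset.range K, (m + 1) * ‖co G (m + 1)‖ ^ 2) ≤ π * M ^ 2 := by
    refine le_trans (le_of_eq ?_) h15
    ring
  exact le_of_mul_le_mul_left h16 hpi

end Pool.Agent.HS85
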