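import Pool.Agent.HU85.Bound
import Mathlib

/-!
Univalent harmonic maps with dilatation bounded by `k`: class, Koebe transforms, growth.
-/

set_option autoImplicit false

open Complex Metric Set Filter Topology
open scoped ComplexConjugate

namespace Pool.Agent.HS85

open Pool.Agent.HU85

/-- `h + conj g ∈ S_H` with dilatation bounded by `k` -/
structure SH (k : ℝ) (h g : ℂ → ℂ) : Prop extends HarmU h g where
  h0 : h 0 = 0
  g0 : g 0 = 0
  h1 : deriv h 0 = 1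
  dil : ∀ z : ℂ, ‖z‖ < 1 → ‖deriv g z‖ ≤ k * ‖deriv h z‖

/-- Koebe transform -/
theorem SH.koebe {k : ℝ} {h g : ℂ → ℂ} (H : SH k h g) {a : ℂ} (ha : ‖a‖ < 1) :
    ∃ H1 G1 : ℂ → ℂ, SH k H1 G1 ∧ deriv (deriv H1) 0 =
      (1 - a * conj a) * (deriv (deriv h) a / deriv h a) - 2 * conj a := by
  set c : ℂ := conj a with hc
  have hcn : ‖c‖ < 1 := by rw [hc, RCLike.norm_conj]; exact ha
  set D : ℂ → ℂ := fun z => 1 + c * z with hD
  have hDne : ∀ z : ℂ, ‖z‖ < 1 → D z ≠ 0 := fun z hz => one_add_ne ha hz.le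
  set T : ℂ → ℂ := fun z => (z + a) / D z with hT
  have hA : 1 - a * c ≠ 0 := one_sub_mul_conj_ne ha
  have hTlt : ∀ z : ℂ, ‖z‖ < 1 → ‖T z‖ < 1 := by
    intro z hz
    have h1 := hDne z hz
    have h2 : 0 < ‖D z‖ := norm_pos_iff.mpr h1
    simp only [hT]
    rw [norm_div, div_lt_one h2]
    have h3 := pick_identity' a z
    have h4 : 0 < (1 - ‖a‖ ^ 2) * (1 - ‖z‖ ^ 2) := by
      apply mul_pos <;> nlinarith [norm_nonneg a, norm_nonneg z]
    simp only [hD, hc]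
    nlinarith [norm_nonneg (z + a), norm_nonneg (1 + conj a * z)]
  have hDd : ∀ z : ℂ, HasDerivAt D c z := by
    intro z
    exact (((hasDerivAt_id z).const_mul c).const_add 1).congr_deriv (by simp)
  set T' : ℂ → ℂ := fun z => (1 - a * c) / D z ^ 2 with hT'
  have hTd : ∀ z : ℂ, ‖z‖ < 1 → HasDerivAt T (T' z) z := by
    intro z hz
    have h1 : HasDerivAt (fun z : ℂ => z + a) 1 z := (hasDerivAt_id z).add_const a
    refine (h1.div (hDd z) (hDne z hz)).congr_deriv ?_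
    simp only [hT']
    congr 1
    simp only [hD]; ring
  have hT'ne : ∀ z : ℂ, ‖z‖ < 1 → T' z ≠ 0 := fun z hz =>
    div_ne_zero hA (pow_ne_zero 2 (hDne z hz))
  have hT'd : ∀ z : ℂ, ‖z‖ < 1 → HasDerivAt T' (T' z * (-2 * c / D z)) z := by
    intro z hz
    have h1 := hDne z hz
    have h2 := (((hDd z).pow 2).inv (pow_ne_zero 2 h1)).const_mul (1 - a * c)
    have h4 : HasDerivAt T' _ z := h2
    refine h4.congr_deriv ?_
    simp only [hT', Pi.pow_apply]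
    field_simp
    norm_num
    ring
  have hz0 : ‖(0:ℂ)‖ < 1 := by simp
  have hT0 : T 0 = a := by simp [hT, hD]
  have hT'0 : T' 0 = 1 - a * c := by simp [hT', hD]
  set c0 : ℂ := deriv h a * (1 - a * c) with hc0
  have hha : deriv h a ≠ 0 := H.toHarmU.h1ne ha
  have hc0ne : c0 ≠ 0 := mul_ne_zero hha hA
  have hc0c : conj c0 ≠ 0 := by rwa [Ne, map_eq_zero]
  set H1 : ℂ → ℂ := fun z => (h (T z) - h a) / c0 with hH1
  set G1 : ℂ → ℂ := fun z => (g (T z) - g a) / conj c0 with hG1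
  have hH1d : ∀ z : ℂ, ‖z‖ < 1 → HasDerivAt H1 (deriv h (T z) * T' z / c0) z := by
    intro z hz
    exact ((((H.toHarmU.h1d (hTlt z hz)).comp z (hTd z hz)).sub_const (h a)).div_const c0)
  have hG1d : ∀ z : ℂ, ‖z‖ < 1 → HasDerivAt G1 (deriv g (T z) * T' z / conj c0) z := by
    intro z hz
    exact ((((H.toHarmU.g1d (hTlt z hz)).comp z (hTd z hz)).sub_const (g a)).div_const (conj c0))
  have hH1d' : ∀ z : ℂ, ‖z‖ < 1 → deriv H1 z = deriv h (T z) * T' z / c0 := fun z hz =>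
    (hH1d z hz).deriv
  have hG1d' : ∀ z : ℂ, ‖z‖ < 1 → deriv G1 z = deriv g (T z) * T' z / conj c0 := fun z hz =>
    (hG1d z hz).deriv
  have hnc : ‖conj c0‖ = ‖c0‖ := RCLike.norm_conj _
  have hc0p : 0 < ‖c0‖ := norm_pos_iff.mpr hc0ne
  refine ⟨H1, G1, ⟨⟨?_, ?_, ?_, ?_⟩, ?_, ?_, ?_, ?_⟩, ?_⟩
  · intro z hz
    exact (hH1d z (by simpa using hz)).differentiableAt.differentiableWithinAt
  · intro z hz
    exact (hG1d z (by simpa using hz)).differentiableAt.differentiableWithinAt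
  · intro z hz
    have hz1 : ‖z‖ < 1 := by simpa using hz
    rw [hH1d' z hz1, hG1d' z hz1, norm_div, norm_div, hnc, norm_mul (deriv g (T z)),
      norm_mul (deriv h (T z))]
    have h2 := H.lt (T z) (by simpa using hTlt z hz1)
    have h3 : 0 < ‖T' z‖ := norm_pos_iff.mpr (hT'ne z hz1)
    gcongr
  · intro z₁ hz1 z₂ hz2 heq
    have h1 : ‖z₁‖ < 1 := by simpa using hz1
    have h2 : ‖z₂‖ < 1 := by simpa using hz2
    have h3 : ∀ z, H1 z + conj (G1 z) =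
        ((h (T z) + conj (g (T z))) - (h a + conj (g a))) / c0 := by
      intro z
      simp only [hH1, hG1, map_div₀, map_sub, Complex.conj_conj]
      ring
    simp only [h3] at heq
    have h4 : h (T z₁) + conj (g (T z₁)) = h (T z₂) + conj (g (T z₂)) := by
      have h5 := (div_left_inj' hc0ne).mp heq
      exact sub_left_injective h5
    have h6 : T z₁ = T z₂ := H.inj (by simpa using hTlt z₁ h1) (by simpa using hTlt z₂ h2) h4
    simp only [hT] at h6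
    rw [div_eq_div_iff (hDne z₁ h1) (hDne z₂ h2)] at h6
    have h7 : (z₁ - z₂) * (1 - a * c) = 0 := by
      simp only [hD] at h6
      linear_combination h6
    rcases mul_eq_zero.mp h7 with h8 | h8
    · exact sub_eq_zero.mp h8
    · exact absurd h8 hA
  · simp [hH1, hT0]
  · simp [hG1, hT0]
  · rw [hH1d' 0 hz0, hT0, hT'0, ← hc0, div_self hc0ne]
  · intro z hz
    rw [hH1d' z hz, hG1d' z hz, norm_div, norm_div, hnc, norm_mul (deriv g (T z)),
      norm_mul (deriv h (T z))]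
    have h2 := H.dil (T z) (hTlt z hz)
    calc ‖deriv g (T z)‖ * ‖T' z‖ / ‖c0‖ ≤ (k * ‖deriv h (T z)‖) * ‖T' z‖ / ‖c0‖ := by gcongr
      _ = _ := by ring
  · have h1 : deriv H1 =ᶠ[𝓝 0] fun z => deriv h (T z) * T' z / c0 := by
      filter_upwards [ball_mem_nhds (0:ℂ) one_pos] with z hz
      exact hH1d' z (by simpa using hz)
    rw [h1.deriv_eq]
    have h2 := ((((H.toHarmU.h2d (hTlt 0 hz0)).comp 0 (hTd 0 hz0)).mul (hT'd 0 hz0)).div_const c0)
    have h3 : HasDerivAt (fun z => deriv h (T z) * T' z / c0) _ 0 := h2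
    rw [h3.deriv]
    have hD0 : D 0 = 1 := by simp [hD]
    simp only [Function.comp_apply, hT0, hT'0, hD0, hc0]
    generalize 1 - a * c = u at hA ⊢
    field_simp
    ring

/-- the order of the class is at most `α` -/
def OrdLe (k α : ℝ) : Prop := ∀ h g : ℂ → ℂ, SH k h g → ‖deriv (deriv h) 0‖ ≤ 2 * α

theorem SH.preschwarz {k α : ℝ} (hα : OrdLe k α) {h g : ℂ → ℂ} (H : SH k h g) {a : ℂ}
    (ha : ‖a‖ < 1) :
    ‖(1 - a * conj a) * (deriv (deriv h) a / deriv h a) - 2 * conj a‖ ≤ 2 * α := by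
  obtain ⟨H1, G1, h1, h2⟩ := H.koebe ha
  rw [← h2]
  exact hα H1 G1 h1

/-- path lemma with one-sided hypotheses -/
theorem path_le' {k k' : ℝ → ℂ} {B B' : ℝ → ℝ}
    (hk : ∀ s ∈ Icc (0:ℝ) 1, HasDerivAt k (k' s) s)
    (hB : ∀ s ∈ Icc (0:ℝ) 1, HasDerivAt B (B' s) s)
    (h : ∀ s ∈ Icc (0:ℝ) 1, ‖k' s‖ ≤ B' s) (h0 : ‖k 0‖ ≤ B 0) : ‖k 1‖ ≤ B 1 := by
  have := image_norm_le_of_norm_deriv_right_le_deriv_boundary' (f := k) (f' := k') (a := 0) (b := 1)
    (B := B) (B' := B')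
    (fun x hx => (hk x hx).continuousAt.continuousWithinAt)
    (fun x hx => (hk x (Ico_subset_Icc_self hx)).hasDerivWithinAt) h0
    (fun x hx => (hB x hx).continuousAt.continuousWithinAt)
    (fun x hx => (hB x (Ico_subset_Icc_self hx)).hasDerivWithinAt)
    (fun x hx => h x (Ico_subset_Icc_self hx))
  exact this (right_mem_Icc.2 zero_le_one)

/-- `log ((1+r)/(1-r))` -/
noncomputable def lg (r : ℝ) : ℝ := Real.log (1 + r) - Real.log (1 - r)

theorem hasDerivAt_lg {r : ℝ} (h0 : -1 < r) (h1 : r < 1) :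
    HasDerivAt lg (2 / (1 - r ^ 2)) r := by
  unfold lg
  have e1 : (0:ℝ) < 1 + r := by linarith
  have e2 : (0:ℝ) < 1 - r := by linarith
  have h2 := ((hasDerivAt_id r).const_add 1).log e1.ne'
  have h3 := ((hasDerivAt_id r).const_sub 1).log e2.ne'
  refine (h2.sub h3).congr_deriv ?_
  have e3 : (1 : ℝ) - r ^ 2 ≠ 0 := by nlinarith
  simp only [id]
  field_simp
  ring

/-- distortion: the logarithm of the derivative -/
theorem SH.log_bound {k α : ℝ} (hα : OrdLe k α) {h g : ℂ → ℂ} (H : SH k h g)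
    {z : ℂ} (hz : ‖z‖ < 1) :
    Real.exp (-(α * lg ‖z‖)) / (1 - ‖z‖ ^ 2) ≤ ‖deriv h z‖ ∧
      ‖deriv h z‖ ≤ Real.exp (α * lg ‖z‖) / (1 - ‖z‖ ^ 2) := by
  obtain ⟨L, hL0, hLd, hLe⟩ := exists_log (F := deriv h) (H.hd.deriv isOpen_ball)
    (fun z hz => H.toHarmU.h1ne (by simpa using hz)) H.h1
  have hmem : ∀ s ∈ Icc (0:ℝ) 1, ‖(s:ℂ) * z‖ = s * ‖z‖ := by
    intro s hs
    rw [norm_mul, Complex.norm_real, Real.norm_of_nonneg hs.1]
  have hle : ∀ s ∈ Icc (0:ℝ) 1, s * ‖z‖ < 1 := by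
    intro s hs
    exact (mul_le_of_le_one_left (norm_nonneg _) hs.2).trans_lt hz
  have hge : ∀ s ∈ Icc (0:ℝ) 1, 0 ≤ s * ‖z‖ := fun s hs => mul_nonneg hs.1 (norm_nonneg _)
  have hpos : ∀ s ∈ Icc (0:ℝ) 1, 0 < 1 - (s * ‖z‖) ^ 2 := by
    intro s hs
    nlinarith [hle s hs, hge s hs]
  have h1 := path_le'
    (k := fun s : ℝ => L ((s:ℂ) * z) + ((Real.log (1 - (s * ‖z‖) ^ 2) : ℝ) : ℂ))
    (k' := fun s : ℝ => z * (deriv (deriv h) ((s:ℂ) * z) / deriv h ((s:ℂ) * z)) +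
      ((-(2 * (s * ‖z‖) * ‖z‖) / (1 - (s * ‖z‖) ^ 2) : ℝ) : ℂ))
    (B := fun s => α * lg (s * ‖z‖))
    (B' := fun s => α * (2 / (1 - (s * ‖z‖) ^ 2) * ‖z‖)) ?_ ?_ ?_ ?_
  · have h2 : ‖L z + (Real.log (1 - ‖z‖ ^ 2) : ℂ)‖ ≤ α * lg ‖z‖ := by simpa using h1
    have h3 := (Complex.abs_re_le_norm _).trans h2
    rw [Complex.add_re, Complex.ofReal_re] at h3
    have h4 := abs_le.mp h3
    have hp : 0 < 1 - ‖z‖ ^ 2 := by nlinarith [norm_nonneg z]
    have h5 : ‖deriv h z‖ = Real.exp (L z).re := by rw [← hLe z hz, Complex.norm_exp]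
    have h6 : (1 - ‖z‖ ^ 2) = Real.exp (Real.log (1 - ‖z‖ ^ 2)) := (Real.exp_log hp).symm
    rw [h5]
    constructor
    · rw [h6, ← Real.exp_sub]
      apply Real.exp_le_exp.mpr
      linarith [h4.1]
    · rw [h6, ← Real.exp_sub]
      apply Real.exp_le_exp.mpr
      linarith [h4.2]
  · intro s hs
    have h2 : HasDerivAt (fun s : ℝ => (s:ℂ) * z) z s := by
      simpa using (Complex.ofRealCLM.hasDerivAt (x := s)).mul_const z
    have h3 := (hLd ((s:ℂ) * z) (by rw [hmem s hs]; exact hle s hs)).scomp s h2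
    have h4 : HasDerivAt (fun s : ℝ => 1 - (s * ‖z‖) ^ 2) (-(2 * (s * ‖z‖) * ‖z‖)) s := by
      have h5 : HasDerivAt (fun s : ℝ => s * ‖z‖) ‖z‖ s := by
        simpa using (hasDerivAt_id s).mul_const ‖z‖
      have h6 := (h5.pow 2).const_sub 1
      refine h6.congr_deriv ?_
      norm_num
    have h7 := (h4.log (hpos s hs).ne').ofReal_comp
    refine (h3.add h7).congr_deriv ?_
    rw [smul_eq_mul]
  · intro s hs
    have h2 : HasDerivAt (fun s : ℝ => s * ‖z‖) ‖z‖ s := by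
      simpa using (hasDerivAt_id s).mul_const ‖z‖
    exact ((hasDerivAt_lg (by linarith [hge s hs]) (hle s hs)).comp s h2).const_mul α
  · intro s hs
    set ζ : ℂ := (s:ℂ) * z with hζ
    have hζn : ‖ζ‖ = s * ‖z‖ := hmem s hs
    have hζ1 : ‖ζ‖ < 1 := by rw [hζn]; exact hle s hs
    have hD := hpos s hs
    have hbd := H.preschwarz hα hζ1
    have hDne : ((1 - (s * ‖z‖) ^ 2 : ℝ) : ℂ) ≠ 0 := by exact_mod_cast hD.ne'
    have hzz : z * conj z = ((‖z‖ ^ 2 : ℝ) : ℂ) := mul_conj_sq z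
    have key : z * (deriv (deriv h) ζ / deriv h ζ) +
        ((-(2 * (s * ‖z‖) * ‖z‖) / (1 - (s * ‖z‖) ^ 2) : ℝ) : ℂ) =
        z * ((1 - ζ * conj ζ) * (deriv (deriv h) ζ / deriv h ζ) - 2 * conj ζ) /
          ((1 - (s * ‖z‖) ^ 2 : ℝ) : ℂ) := by
      rw [eq_div_iff hDne]
      have h2 : (((-(2 * (s * ‖z‖) * ‖z‖) / (1 - (s * ‖z‖) ^ 2) : ℝ) : ℂ)) *
          ((1 - (s * ‖z‖) ^ 2 : ℝ) : ℂ) = ((-(2 * (s * ‖z‖) * ‖z‖) : ℝ) : ℂ) := by
        rw [← Complex.ofReal_mul, div_mul_cancel₀ _ hD.ne']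
      rw [add_mul, h2, mul_conj_sq, hζn]
      have h3 : conj ζ = (s:ℂ) * conj z := by rw [hζ, map_mul, Complex.conj_ofReal]
      rw [h3]
      push_cast
      push_cast at hzz
      linear_combination (2 * (s:ℂ)) * hzz
    rw [key, norm_div, norm_mul, Complex.norm_real, Real.norm_of_nonneg hD.le]
    rw [div_le_iff₀ hD]
    calc ‖z‖ * ‖(1 - ζ * conj ζ) * (deriv (deriv h) ζ / deriv h ζ) - 2 * conj ζ‖
        ≤ ‖z‖ * (2 * α) := mul_le_mul_of_nonneg_left hbd (norm_nonneg _)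
      _ = α * (2 / (1 - (s * ‖z‖) ^ 2) * ‖z‖) * (1 - (s * ‖z‖) ^ 2) := by
        have hX := hD.ne'
        generalize 1 - (s * ‖z‖) ^ 2 = X at hX ⊢
        field_simp
  · simp [hL0, lg]

/-- growth majorant -/
noncomputable def GM (α r : ℝ) : ℝ := (Real.exp (α * lg r) - 1) / (2 * α)

theorem SH.growth {k α : ℝ} (hα0 : 0 < α) (hα : OrdLe k α) {h g : ℂ → ℂ} (H : SH k h g)
    {z : ℂ} (hz : ‖z‖ < 1) : ‖h z‖ ≤ GM α ‖z‖ ∧ ‖g z‖ ≤ k * GM α ‖z‖ := by
  have hmem : ∀ s ∈ Icc (0:ℝ) 1, ‖(s:ℂ) * z‖ = s * ‖z‖ := by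
    intro s hs
    rw [norm_mul, Complex.norm_real, Real.norm_of_nonneg hs.1]
  have hle : ∀ s ∈ Icc (0:ℝ) 1, s * ‖z‖ < 1 := by
    intro s hs
    exact (mul_le_of_le_one_left (norm_nonneg _) hs.2).trans_lt hz
  have hge : ∀ s ∈ Icc (0:ℝ) 1, 0 ≤ s * ‖z‖ := fun s hs => mul_nonneg hs.1 (norm_nonneg _)
  have hk0 : 0 ≤ k := by
    have h1 := H.dil 0 (by simp)
    rw [H.h1, norm_one, mul_one] at h1
    exact (norm_nonneg _).trans h1
  have hBd : ∀ s ∈ Icc (0:ℝ) 1, HasDerivAt (fun s => GM α (s * ‖z‖))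
      (‖z‖ * (Real.exp (α * lg (s * ‖z‖)) / (1 - (s * ‖z‖) ^ 2))) s := by
    intro s hs
    have h2 : HasDerivAt (fun s : ℝ => s * ‖z‖) ‖z‖ s := by
      simpa using (hasDerivAt_id s).mul_const ‖z‖
    have h3 := ((hasDerivAt_lg (by linarith [hge s hs]) (hle s hs)).comp s h2).const_mul α
    have h4 := (h3.exp.sub_const 1).div_const (2 * α)
    refine h4.congr_deriv ?_
    have : 0 < 1 - (s * ‖z‖) ^ 2 := by nlinarith [hle s hs, hge s hs]
    simp only [Function.comp_apply]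
    field_simp
  have h2d : ∀ s ∈ Icc (0:ℝ) 1, HasDerivAt (fun s : ℝ => (s:ℂ) * z) z s := by
    intro s hs
    simpa using (Complex.ofRealCLM.hasDerivAt (x := s)).mul_const z
  constructor
  · have h1 := path_le' (k := fun s : ℝ => h ((s:ℂ) * z)) (k' := fun s : ℝ => z * deriv h ((s:ℂ) * z))
      (B := fun s => GM α (s * ‖z‖))
      (B' := fun s => ‖z‖ * (Real.exp (α * lg (s * ‖z‖)) / (1 - (s * ‖z‖) ^ 2))) ?_ hBd ?_ ?_
    · simpa using h1
    · intro s hs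
      refine ((H.toHarmU.h1d (z := (s:ℂ) * z) (by rw [hmem s hs]; exact hle s hs)).scomp s
        (h2d s hs)).congr_deriv ?_
      rw [smul_eq_mul]
    · intro s hs
      rw [norm_mul]
      have h3 := (H.log_bound hα (z := (s:ℂ) * z) (by rw [hmem s hs]; exact hle s hs)).2
      rw [hmem s hs] at h3
      exact mul_le_mul_of_nonneg_left h3 (norm_nonneg _)
    · simp [H.h0, GM, lg]
  · have h1 := path_le' (k := fun s : ℝ => g ((s:ℂ) * z)) (k' := fun s : ℝ => z * deriv g ((s:ℂ) * z))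
      (B := fun s => k * GM α (s * ‖z‖))
      (B' := fun s => k * (‖z‖ * (Real.exp (α * lg (s * ‖z‖)) / (1 - (s * ‖z‖) ^ 2)))) ?_
      (fun s hs => (hBd s hs).const_mul k) ?_ ?_
    · simpa using h1
    · intro s hs
      refine ((H.toHarmU.g1d (z := (s:ℂ) * z) (by rw [hmem s hs]; exact hle s hs)).scomp s
        (h2d s hs)).congr_deriv ?_
      rw [smul_eq_mul]
    · intro s hs
      rw [norm_mul]
      have h3 := (H.log_bound hα (z := (s:ℂ) * z) (by rw [hmem s hs]; exact hle s hs)).2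
      rw [hmem s hs] at h3
      have h4 := H.dil ((s:ℂ) * z) (by rw [hmem s hs]; exact hle s hs)
      calc ‖z‖ * ‖deriv g ((s:ℂ) * z)‖ ≤ ‖z‖ * (k * ‖deriv h ((s:ℂ) * z)‖) := by gcongr
        _ ≤ ‖z‖ * (k * (Real.exp (α * lg (s * ‖z‖)) / (1 - (s * ‖z‖) ^ 2))) := by gcongr
        _ = _ := by ring
    · simp [H.g0, GM, lg]

end Pool.Agent.HS85
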