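import Pool.Agent.HS85.AreaN
import Pool.Agent.HS85.Defs
import Mathlib

/-!
Area inequality on smaller discs; large coefficients of maps with small dilatation.
-/

set_option autoImplicit false

open Complex Metric Set Filter Topology MeasureTheory
open scoped ComplexConjugate Real

namespace Pool.Agent.HS85

open Pool.Agent.HU26 (FC mean pt norm_pt pt_mem_ball Har hm Jac)
open Pool.Agent.HU85

theorem mul_pt (r t x : ℝ) : (r:ℂ) * pt t x = pt (r * t) x := by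
  unfold pt; push_cast; ring

theorem co_scale {G : ℂ → ℂ} (hG : DifferentiableOn ℂ G (ball 0 1)) {r : ℝ} (hr0 : 0 < r)
    (hr1 : r ≤ 1) (n : ℕ) : co (fun z => G (r * z)) n = co G n * r ^ n := by
  have h1 : DifferentiableOn ℂ (fun z => G (r * z)) (ball 0 1) := by
    apply hG.comp (by fun_prop)
    intro z hz
    rw [mem_ball_zero_iff] at hz ⊢
    rw [norm_mul, Complex.norm_real, Real.norm_of_nonneg hr0.le]
    nlinarith [norm_nonneg z]
  have h2 := fc_nat h1 (t := 1 / 2) ⟨by norm_num, by norm_num⟩ n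
  have h3 := fc_nat hG (t := r * (1 / 2)) ⟨by positivity, by linarith⟩ n
  simp only [mul_pt] at h2
  rw [h3] at h2
  have h4 : ((1 / 2 : ℝ) : ℂ) ^ n ≠ 0 := by
    apply pow_ne_zero
    norm_num
  have h5 : co G n * ((r * (1 / 2) : ℝ) : ℂ) ^ n = co G n * (r:ℂ) ^ n * ((1 / 2 : ℝ) : ℂ) ^ n := by
    push_cast; ring
  rw [h5] at h2
  exact (mul_right_cancel₀ h4 h2).symm

theorem scale_deriv {G : ℂ → ℂ} (hG : DifferentiableOn ℂ G (ball 0 1)) {r : ℝ} {z : ℂ}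
    (hz : ‖(r:ℂ) * z‖ < 1) : HasDerivAt (fun z => G (r * z)) (deriv G (r * z) * r) z := by
  have h1 : HasDerivAt (fun z : ℂ => (r:ℂ) * z) r z := by
    simpa using (hasDerivAt_id z).const_mul (r:ℂ)
  exact (hasDerivAt_of hG (by simpa using hz)).comp z h1

theorem har_scale {h g : ℂ → ℂ} (H : HarmU h g) {r : ℝ} (hr0 : 0 < r) (hr1 : r < 1) :
    Har (1 / r) (fun z => h (r * z)) (fun z => g (r * z)) := by
  have hn : ∀ z : ℂ, z ∈ ball (0:ℂ) (1 / r) → ‖(r:ℂ) * z‖ < 1 := by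
    intro z hz
    rw [mem_ball_zero_iff] at hz
    rw [norm_mul, Complex.norm_real, Real.norm_of_nonneg hr0.le]
    rwa [lt_div_iff₀ hr0, mul_comm] at hz
  have hrc : (r:ℂ) ≠ 0 := by exact_mod_cast hr0.ne'
  refine ⟨by rw [lt_div_iff₀ hr0]; linarith, ?_, ?_, ?_, ?_⟩
  · intro z hz
    exact (scale_deriv H.hd (hn z hz)).differentiableAt.differentiableWithinAt
  · intro z hz
    exact (scale_deriv H.gd (hn z hz)).differentiableAt.differentiableWithinAt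
  · intro z hz
    rw [(scale_deriv H.hd (hn z hz)).deriv, (scale_deriv H.gd (hn z hz)).deriv, norm_mul, norm_mul]
    have h1 := H.lt (r * z) (by simpa using hn z hz)
    have h2 : 0 < ‖(r:ℂ)‖ := norm_pos_iff.mpr hrc
    exact mul_lt_mul_of_pos_right h1 h2
  · intro z₁ h1 z₂ h2 heq
    have h3 := H.inj (by simpa using hn z₁ h1) (by simpa using hn z₂ h2) heq
    exact mul_left_cancel₀ hrc h3

/-- area inequality in the disc of radius `r` -/
theorem area_r {h g : ℂ → ℂ} (H : HarmU h g) {r : ℝ} (hr0 : 0 < r) (hr1 : r < 1) {M : ℝ}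
    (hM : ∀ z : ℂ, ‖z‖ < r → ‖h z + conj (g z)‖ ≤ M) {G : ℂ → ℂ}
    (hG : DifferentiableOn ℂ G (ball 0 1)) {c : ℝ} (hc : 0 ≤ c)
    (hGJ : ∀ z : ℂ, ‖z‖ < 1 → c * ‖deriv G z‖ ^ 2 ≤ ‖deriv h z‖ ^ 2 - ‖deriv g z‖ ^ 2) (K : ℕ) :
    c * ∑ m ∈ Finset.range K, (m + 1) * (‖co G (m + 1)‖ ^ 2 * r ^ (2 * (m + 1))) ≤ M ^ 2 := by
  have D := har_scale H hr0 hr1
  have hn : ∀ z : ℂ, z ∈ ball (0:ℂ) (1 / r) → ‖(r:ℂ) * z‖ < 1 := by
    intro z hz
    rw [mem_ball_zero_iff] at hz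
    rw [norm_mul, Complex.norm_real, Real.norm_of_nonneg hr0.le]
    rwa [lt_div_iff₀ hr0, mul_comm] at hz
  have h1 := area_co D (M := M) ?_ (G := fun z => G (r * z)) ?_ hc ?_ K
  · refine le_trans (le_of_eq ?_) h1
    congr 1
    apply Finset.sum_congr rfl
    intro m _
    rw [co_scale hG hr0 hr1.le, norm_mul, norm_pow, Complex.norm_real, Real.norm_of_nonneg hr0.le]
    ring
  · intro z hz
    rw [mem_ball_zero_iff] at hz
    unfold hm
    apply hM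
    rw [norm_mul, Complex.norm_real, Real.norm_of_nonneg hr0.le]
    nlinarith
  · intro z hz
    exact (scale_deriv hG (hn z hz)).differentiableAt.differentiableWithinAt
  · intro z hz
    have hz' : z ∈ ball (0:ℂ) (1 / r) := ball_subset_ball D.R1.le hz
    have h2 := hn z hz'
    unfold Jac
    rw [(scale_deriv H.hd h2).deriv, (scale_deriv H.gd h2).deriv, (scale_deriv hG h2).deriv,
      norm_mul, norm_mul, norm_mul]
    have h3 := hGJ _ h2
    nlinarith [sq_nonneg ‖(r:ℂ)‖, mul_le_mul_of_nonneg_right h3 (sq_nonneg ‖(r:ℂ)‖)]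

/-- single coefficient -/
theorem area_single {h g : ℂ → ℂ} (H : HarmU h g) {r : ℝ} (hr0 : 0 < r) (hr1 : r < 1) {M : ℝ}
    (hM : ∀ z : ℂ, ‖z‖ < r → ‖h z + conj (g z)‖ ≤ M) {G : ℂ → ℂ}
    (hG : DifferentiableOn ℂ G (ball 0 1)) {c : ℝ} (hc : 0 ≤ c)
    (hGJ : ∀ z : ℂ, ‖z‖ < 1 → c * ‖deriv G z‖ ^ 2 ≤ ‖deriv h z‖ ^ 2 - ‖deriv g z‖ ^ 2) (m : ℕ) :
    c * ((m + 1) * (‖co G (m + 1)‖ ^ 2 * r ^ (2 * (m + 1)))) ≤ M ^ 2 := by
  refine le_trans ?_ (area_r H hr0 hr1 hM hG hc hGJ (m + 1))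
  apply mul_le_mul_of_nonneg_left _ hc
  rw [Finset.sum_range_succ]
  have : 0 ≤ ∑ x ∈ Finset.range m, ((x:ℝ) + 1) * (‖co G (x + 1)‖ ^ 2 * r ^ (2 * (x + 1))) :=
    Finset.sum_nonneg (fun i _ => by positivity)
  linarith

end Pool.Agent.HS85
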