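import Pool.Agent.HS85.AreaR
import Mathlib

/-!
The classical area theorem for `(h/z)^(-1/2)` and the Bieberbach inequality.
-/

set_option autoImplicit false

open Complex Metric Set Filter Topology MeasureTheory
open scoped ComplexConjugate Real

namespace Pool.Agent.HS85

open Pool.Agent.HU26 (FC mean pt norm_pt pt_mem_ball Har hm Jac Dat IsE e ex e_hasDerivAt_snd
  hasSum_two_n)
open Pool.Agent.HU85

/-- the analytic square root `E = (h/z)^(-1/2)` -/
theorem exists_E1 {h : ℂ → ℂ} (H : HarmU h (fun _ => 0)) (h0 : h 0 = 0) (h1 : deriv h 0 = 1) :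
    ∃ E U : ℂ → ℂ, DifferentiableOn ℂ E (ball 0 1) ∧ DifferentiableOn ℂ U (ball 0 1) ∧
      E 0 = 1 ∧ (∀ z : ℂ, ‖z‖ < 1 → E z ≠ 0) ∧ (∀ z : ℂ, h z = z * U z) ∧ U 0 = 1 ∧
      (∀ z : ℂ, ‖z‖ < 1 → E z ^ 2 * U z = 1) := by
  have h0b : (0:ℂ) ∈ ball (0:ℂ) 1 := by simp
  set U : ℂ → ℂ := dslope h 0 with hU
  have hUd : DifferentiableOn ℂ U (ball 0 1) :=
    (Complex.differentiableOn_dslope (isOpen_ball.mem_nhds h0b)).2 H.hd
  have hhU : ∀ z : ℂ, h z = z * U z := by
    intro z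
    have h2 := sub_smul_dslope h 0 z
    rw [h0, sub_zero, sub_zero, smul_eq_mul] at h2
    exact h2.symm
  have hU0 : U 0 = 1 := by rw [hU, dslope_same, h1]
  have hUne : ∀ z ∈ ball (0:ℂ) 1, U z ≠ 0 := by
    intro z hz hUz
    rcases eq_or_ne z 0 with rfl | hz0
    · rw [hU0] at hUz; exact one_ne_zero hUz
    · have h2 : h z = h 0 := by rw [hhU z, hUz, mul_zero, h0]
      exact hz0 (H.inj hz h0b (by simp [h2]))
  obtain ⟨L, hL0, hLd, hLe⟩ := exists_log hUd hUne hU0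
  refine ⟨fun z => exp (-(1 / 2) * L z), U, ?_, hUd, ?_, fun z _ => exp_ne_zero _, hhU, hU0, ?_⟩
  · intro z hz
    have h3 := hLd z (by simpa using hz)
    exact ((h3.const_mul (-(1 / 2) : ℂ)).cexp).differentiableAt.differentiableWithinAt
  · simp [hL0]
  · intro z hz
    simp only
    rw [← hLe z hz, ← Complex.exp_nat_mul, ← Complex.exp_add]
    have : ((2:ℕ):ℂ) * (-(1 / 2) * L z) + L z = 0 := by push_cast; ring
    rw [this, Complex.exp_zero]

/-- area theorem at radius `r` -/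
theorem area_E {h : ℂ → ℂ} (H : HarmU h (fun _ => 0)) (h0 : h 0 = 0) (h1 : deriv h 0 = 1)
    {E U : ℂ → ℂ} (hE : DifferentiableOn ℂ E (ball 0 1)) (hE0 : E 0 = 1)
    (hEne : ∀ z : ℂ, ‖z‖ < 1 → E z ≠ 0) (hhU : ∀ z : ℂ, h z = z * U z)
    (hEU : ∀ z : ℂ, ‖z‖ < 1 → E z ^ 2 * U z = 1) {r : ℝ} (hr0 : 0 < r) (hr1 : r < 1) :
    ‖co E 1‖ ^ 2 * r ^ 2 + 3 * (‖co E 2‖ ^ 2 * r ^ 4) ≤ 1 := by
  have hrc : (r:ℂ) ≠ 0 := by exact_mod_cast hr0.ne'
  have hn : ∀ z : ℂ, z ∈ ball (0:ℂ) (1 / r) → ‖(r:ℂ) * z‖ < 1 := by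
    intro z hz
    rw [mem_ball_zero_iff] at hz
    rw [norm_mul, Complex.norm_real, Real.norm_of_nonneg hr0.le]
    rwa [lt_div_iff₀ hr0, mul_comm] at hz
  have hR1 : 1 < 1 / r := by rw [lt_div_iff₀ hr0]; linarith
  set hr : ℂ → ℂ := fun z => h (r * z) / r with hhr
  have hhrd : ∀ z : ℂ, z ∈ ball (0:ℂ) (1 / r) → HasDerivAt hr (deriv h (r * z)) z := by
    intro z hz
    refine ((scale_deriv H.hd (hn z hz)).div_const (r:ℂ)).congr_deriv ?_
    field_simp
  have h0R : (0:ℂ) ∈ ball (0:ℂ) (1 / r) := by simp [hr0]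
  have D : Dat 1 1 (1 / r) hr (fun _ => 0) := by
    refine ⟨hR1, one_pos, le_refl 1, le_refl 1, ?_, ?_, ?_, rfl, ?_, ?_, ?_, ?_⟩
    · intro z hz
      exact (hhrd z hz).differentiableAt.differentiableWithinAt
    · exact differentiableOn_const 0
    · simp [hhr, h0]
    · rw [(hhrd 0 h0R).deriv, mul_zero, h1]
    · intro z hz
      rw [deriv_const, norm_zero, (hhrd z hz).deriv]
      exact norm_pos_iff.mpr (H.h1ne (hn z hz))
    · intro z₁ hz1 z₂ hz2 heq
      simp only [hhr, map_zero, add_zero] at heq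
      have h3 : h (r * z₁) = h (r * z₂) := (div_left_inj' hrc).mp heq
      have h4 : (r:ℂ) * z₁ = (r:ℂ) * z₂ := H.inj (by simpa using hn z₁ hz1)
        (by simpa using hn z₂ hz2) (by simp [h3])
      exact mul_left_cancel₀ hrc h4
    · intro z _
      rw [deriv_const, norm_zero]
      positivity
  set Er : ℂ → ℂ := fun z => E (r * z) with hEr
  have hErd : ∀ z : ℂ, z ∈ ball (0:ℂ) (1 / r) → HasDerivAt Er (deriv E (r * z) * r) z := by
    intro z hz
    exact scale_deriv hE (hn z hz)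
  have hErD : DifferentiableOn ℂ Er (ball 0 (1 / r)) := fun z hz =>
    (hErd z hz).differentiableAt.differentiableWithinAt
  have hIs : IsE (1 / r) hr (fun _ => 0) Er := by
    refine ⟨hErD.continuousOn, ?_, ?_, ?_⟩
    · simp [hEr, hE0]
    · intro z hz
      unfold hm
      simp only [hEr, hhr, map_zero, add_zero]
      rw [hhU]
      have h5 := hEU (r * z) (hn z hz)
      field_simp
      linear_combination (z : ℂ) * h5
    · intro z hz
      exact hEne _ (hn z hz)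
  have har := Pool.Agent.HU26.area D hIs
  have h1R : (1:ℝ) ∈ Ioo 0 (1 / r) := ⟨one_pos, hR1⟩
  -- derivative of the boundary function
  have hder : ∀ x : ℝ, HasDerivAt (fun x => e Er 1 x)
      (deriv Er (pt 1 x) * (I * pt 1 x)) x := by
    intro x
    have hz : pt 1 x ∈ ball (0:ℂ) (1 / r) := pt_mem_ball x ⟨by linarith, hR1⟩
    have h6 : HasDerivAt Er (deriv Er (pt 1 x)) (pt 1 x) :=
      ((hErd _ hz).differentiableAt).hasDerivAt
    exact h6.comp_of_eq x (Pool.Agent.HU26.pt_hasDerivAt_snd 1 x) rfl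
  have hex : ex Er hr (fun _ => 0) 1 = fun x => deriv Er (pt 1 x) * (I * pt 1 x) := by
    funext x
    exact (e_hasDerivAt_snd D hIs x h1R).unique (hder x)
  have hptc : Continuous (fun x : ℝ => pt 1 x) := by unfold pt; fun_prop
  have hcont : Continuous (fun x : ℝ => deriv Er (pt 1 x) * (I * pt 1 x)) := by
    have h7 : Continuous (fun x : ℝ => deriv Er (pt 1 x)) :=
      (hErD.deriv isOpen_ball).continuousOn.comp_continuous hptc
        (fun x => pt_mem_ball x ⟨by linarith, hR1⟩)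
    exact h7.mul (by fun_prop)
  have hper : e Er 1 π = e Er 1 (-π) := by
    unfold e
    rw [Pool.Agent.HU26.pt_pi]
  have hsum := hasSum_two_n (u := e Er 1) hder hcont hper
  rw [hex] at har
  have hnn : ∀ n : ℤ, n ∉ ({0, 1, 2} : Finset ℤ) → 0 ≤ (2 * (n:ℝ) - 1) * ‖FC (e Er 1) n‖ ^ 2 := by
    intro n hn3
    rcases lt_or_ge n 0 with hneg | hpos
    · obtain ⟨m, hm⟩ : ∃ m : ℕ, n = -((m + 1 : ℕ) : ℤ) := ⟨(-n - 1).toNat, by omega⟩
      have h8 := fc_neg hErD (t := 1) h1R m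
      rw [hm]
      have h9 : FC (e Er 1) (-((m + 1 : ℕ) : ℤ)) = 0 := h8
      rw [h9]
      simp
    · have h10 : 3 ≤ n := by
        simp only [Finset.mem_insert, Finset.mem_singleton, not_or] at hn3
        omega
      have h11 : (3:ℝ) ≤ n := by exact_mod_cast h10
      have : 0 ≤ 2 * (n:ℝ) - 1 := by linarith
      positivity
  have hle := sum_le_hasSum ({0, 1, 2} : Finset ℤ) hnn hsum
  have hfc : ∀ n : ℕ, FC (e Er 1) (n:ℤ) = co E n * r ^ n := by
    intro n
    have h12 := fc_nat hErD (t := 1) h1R n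
    have h13 : co Er n = co E n * r ^ n := co_scale hE hr0 hr1.le n
    rw [h13] at h12
    have h14 : FC (e Er 1) (n:ℤ) = FC (fun x => Er (pt 1 x)) n := rfl
    rw [h14, h12]
    simp
  have e0 := hfc 0
  have e1 := hfc 1
  have e2 := hfc 2
  push_cast at e0 e1 e2
  rw [Finset.sum_insert (by decide), Finset.sum_insert (by decide), Finset.sum_singleton,
    e0, e1, e2] at hle
  have hco0 : co E 0 = 1 := by
    unfold co
    simp [hE0]
  have hle2 := hle.trans har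
  rw [hco0] at hle2
  simp only [norm_mul, norm_pow, Complex.norm_real, Real.norm_of_nonneg hr0.le] at hle2
  norm_num at hle2
  nlinarith

theorem area_E' {h : ℂ → ℂ} (H : HarmU h (fun _ => 0)) (h0 : h 0 = 0) (h1 : deriv h 0 = 1)
    {E U : ℂ → ℂ} (hE : DifferentiableOn ℂ E (ball 0 1)) (hE0 : E 0 = 1)
    (hEne : ∀ z : ℂ, ‖z‖ < 1 → E z ≠ 0) (hhU : ∀ z : ℂ, h z = z * U z)
    (hEU : ∀ z : ℂ, ‖z‖ < 1 → E z ^ 2 * U z = 1) :
    ‖co E 1‖ ^ 2 + 3 * ‖co E 2‖ ^ 2 ≤ 1 := by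
  have h2 : Tendsto (fun r : ℝ => ‖co E 1‖ ^ 2 * r ^ 2 + 3 * (‖co E 2‖ ^ 2 * r ^ 4)) (𝓝[<] 1)
      (𝓝 (‖co E 1‖ ^ 2 * 1 ^ 2 + 3 * (‖co E 2‖ ^ 2 * 1 ^ 4))) := by
    have : Continuous (fun r : ℝ => ‖co E 1‖ ^ 2 * r ^ 2 + 3 * (‖co E 2‖ ^ 2 * r ^ 4)) := by fun_prop
    exact (this.tendsto 1).mono_left nhdsWithin_le_nhds
  have h3 : ∀ᶠ r : ℝ in 𝓝[<] 1, ‖co E 1‖ ^ 2 * r ^ 2 + 3 * (‖co E 2‖ ^ 2 * r ^ 4) ≤ 1 := by
    filter_upwards [Ioo_mem_nhdsLT (show (0:ℝ) < 1 by norm_num)] with r hr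
    exact area_E H h0 h1 hE hE0 hEne hhU hEU hr.1 hr.2
  have h4 := le_of_tendsto h2 h3
  simpa using h4

/-- Coefficients two and three of a normalised univalent function. -/
theorem bieb {h : ℂ → ℂ} (H : HarmU h (fun _ => 0)) (h0 : h 0 = 0) (h1 : deriv h 0 = 1) :
    ‖co h 2‖ ≤ 2 ∧ ‖co h 3‖ ≤ 5 := by
  obtain ⟨E, U, hE, hU, hE0, hEne, hhU, hU0, hEU⟩ := exists_E1 H h0 h1
  have har := area_E' H h0 h1 hE hE0 hEne hhU hEU
  have h0b : (0:ℂ) ∈ ball (0:ℂ) 1 := by simp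
  have hE1 := hE.deriv isOpen_ball
  have hU1 := hU.deriv isOpen_ball
  have hE2 := hE1.deriv isOpen_ball
  have hU2 := hU1.deriv isOpen_ball
  have hnb : ball (0:ℂ) 1 ∈ 𝓝 (0:ℂ) := isOpen_ball.mem_nhds h0b
  -- first identity
  have i1 : ∀ z ∈ ball (0:ℂ) 1, 2 * E z * deriv E z * U z + E z ^ 2 * deriv U z = 0 := by
    intro z hz
    have e1 := ((hasDerivAt_of hE hz).pow 2).mul (hasDerivAt_of hU hz)
    have e2 : HasDerivAt (fun z => E z ^ 2 * U z) 0 z := by
      have : (fun z => E z ^ 2 * U z) =ᶠ[𝓝 z] fun _ => 1 := by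
        filter_upwards [isOpen_ball.mem_nhds hz] with x hx
        exact hEU x (by simpa using hx)
      exact (hasDerivAt_const z (1:ℂ)).congr_of_eventuallyEq this
    have e3 := e1.unique e2
    simp only [Pi.pow_apply] at e3
    norm_num at e3
    linear_combination e3
  have i2 : 2 * deriv E 0 * deriv E 0 + 2 * deriv (deriv E) 0 + 4 * deriv E 0 * deriv U 0 +
      deriv (deriv U) 0 = 0 := by
    have e1 := ((((hasDerivAt_of hE h0b).const_mul 2).mul (hasDerivAt_of hE1 h0b)).mul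
      (hasDerivAt_of hU h0b)).add (((hasDerivAt_of hE h0b).pow 2).mul (hasDerivAt_of hU1 h0b))
    have e2 : HasDerivAt (fun z => 2 * E z * deriv E z * U z + E z ^ 2 * deriv U z) 0 0 := by
      have : (fun z => 2 * E z * deriv E z * U z + E z ^ 2 * deriv U z) =ᶠ[𝓝 0] fun _ => 0 := by
        filter_upwards [hnb] with x hx
        exact i1 x hx
      exact (hasDerivAt_const 0 (0:ℂ)).congr_of_eventuallyEq this
    have e3 := e1.unique e2
    simp only [Pi.mul_apply, Pi.pow_apply, hE0, hU0] at e3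
    norm_num at e3
    linear_combination e3
  have i3 := i1 0 h0b
  rw [hE0, hU0] at i3
  -- derivatives of h
  have j1 : ∀ z ∈ ball (0:ℂ) 1, deriv h z = U z + z * deriv U z := by
    intro z hz
    have e1 := (hasDerivAt_id z).mul (hasDerivAt_of hU hz)
    have e2 : h = fun z => z * U z := funext hhU
    have e4 : HasDerivAt (fun z => z * U z) (1 * U z + z * deriv U z) z := e1
    have e3 : HasDerivAt h (1 * U z + z * deriv U z) z := e2 ▸ e4
    rw [e3.deriv]
    ring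
  have j2 : ∀ z ∈ ball (0:ℂ) 1, deriv (deriv h) z = 2 * deriv U z + z * deriv (deriv U) z := by
    intro z hz
    have e1 := (hasDerivAt_of hU hz).add ((hasDerivAt_id z).mul (hasDerivAt_of hU1 hz))
    have e2 : deriv h =ᶠ[𝓝 z] fun z => U z + z * deriv U z := by
      filter_upwards [isOpen_ball.mem_nhds hz] with x hx
      exact j1 x hx
    have e3 : HasDerivAt (fun z => U z + z * deriv U z) _ z := e1
    rw [e2.deriv_eq, e3.deriv]
    simp only [id]
    ring
  have j3 : deriv (deriv (deriv h)) 0 = 3 * deriv (deriv U) 0 := by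
    have e1 := ((hasDerivAt_of hU1 h0b).const_mul 2).add
      ((hasDerivAt_id (0:ℂ)).mul (hasDerivAt_of hU2 h0b))
    have e2 : deriv (deriv h) =ᶠ[𝓝 0] fun z => 2 * deriv U z + z * deriv (deriv U) z := by
      filter_upwards [hnb] with x hx
      exact j2 x hx
    have e3 : HasDerivAt (fun z => 2 * deriv U z + z * deriv (deriv U) z) _ 0 := e1
    rw [e2.deriv_eq, e3.deriv]
    simp only [id]
    ring
  have c1 : co E 1 = deriv E 0 := by unfold co; simp
  have c2 : co E 2 = deriv (deriv E) 0 / 2 := by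
    unfold co
    rw [iteratedDeriv_succ, iteratedDeriv_one]
    norm_num
  have c3 : co h 2 = deriv U 0 := by
    unfold co
    rw [iteratedDeriv_succ, iteratedDeriv_one, j2 0 h0b]
    norm_num
  have c4 : co h 3 = deriv (deriv U) 0 / 2 := by
    unfold co
    rw [iteratedDeriv_succ, iteratedDeriv_succ, iteratedDeriv_one, j3]
    norm_num [Nat.factorial]
    ring
  have k1 : co h 2 = -2 * co E 1 := by
    rw [c3, c1]; linear_combination i3
  have k2 : co h 3 = 3 * (co E 1) ^ 2 - 2 * co E 2 := by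
    have hU' : deriv U 0 = -2 * deriv E 0 := by rw [← c3, ← c1]; exact k1
    rw [c4, c1, c2]
    rw [hU'] at i2
    linear_combination (1 / 2) * i2
  have n1 : ‖co E 1‖ ≤ 1 := by
    have : ‖co E 1‖ ^ 2 ≤ 1 := by nlinarith [sq_nonneg ‖co E 2‖]
    nlinarith [norm_nonneg (co E 1)]
  have n2 : ‖co E 2‖ ≤ 1 := by
    have : ‖co E 2‖ ^ 2 ≤ 1 := by nlinarith [sq_nonneg ‖co E 1‖, sq_nonneg ‖co E 2‖]
    nlinarith [norm_nonneg (co E 2)]
  constructor
  · rw [k1, norm_mul]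
    norm_num
    linarith
  · rw [k2]
    refine (norm_sub_le _ _).trans ?_
    rw [norm_mul, norm_mul, norm_pow]
    norm_num
    nlinarith [norm_nonneg (co E 1)]

end Pool.Agent.HS85
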