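import Pool.Agent.HS85.Limit
import Mathlib

/-!
Large coefficients, and the theorem for all coefficients.
-/

set_option autoImplicit false

open Complex Metric Set Filter Topology MeasureTheory
open scoped ComplexConjugate Real

namespace Pool.Agent.HS85

open Pool.Agent.HU85

theorem SH.mono {k k' : ℝ} (hk : k ≤ k') {h g : ℂ → ℂ} (H : SH k h g) : SH k' h g where
  toHarmU := H.toHarmU
  h0 := H.h0
  g0 := H.g0
  h1 := H.h1
  dil := fun z hz => (H.dil z hz).trans (mul_le_mul_of_nonneg_right hk (norm_nonneg _))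

theorem pow_low {m : ℕ} (hm : 1 ≤ m) : (1:ℝ) / 6 ≤ (1 - 1 / ((m + 1 : ℕ) : ℝ)) ^ (m + 1) := by
  have hm0 : (0:ℝ) < m := by exact_mod_cast hm
  have h12 : 1 - 1 / ((m + 1 : ℕ) : ℝ) = (1 + 1 / (m:ℝ))⁻¹ := by
    push_cast; field_simp; ring
  have h13 : (1 + 1 / (m:ℝ)) ^ m ≤ Real.exp 1 := by
    have h14 : 1 + 1 / (m:ℝ) ≤ Real.exp (1 / m) := by
      have := Real.add_one_le_exp (1 / (m:ℝ)); linarith
    calc (1 + 1 / (m:ℝ)) ^ m ≤ (Real.exp (1 / m)) ^ m := by gcongr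
      _ = Real.exp 1 := by rw [← Real.exp_nat_mul]; congr 1; field_simp
  have h18 : Real.exp 1 < 2.7182818286 := Real.exp_one_lt_d9
  have h19 : 1 + 1 / (m:ℝ) ≤ 2 := by
    have : 1 / (m:ℝ) ≤ 1 := by
      rw [div_le_one hm0]; exact_mod_cast hm
    linarith
  have h20 : (1 + 1 / (m:ℝ)) ^ (m + 1) ≤ 6 := by
    rw [pow_succ]
    have h0 : 0 ≤ (1 + 1 / (m:ℝ)) ^ m := by positivity
    have h1 : 0 ≤ 1 + 1 / (m:ℝ) := by positivity
    nlinarith
  rw [h12, inv_pow, one_div]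
  apply inv_anti₀ (by positivity) h20

theorem large_n {k : ℝ} (hk : k ≤ 1 / 2) (hα : OrdLe k (9 / 4)) {h g : ℂ → ℂ} (H : SH k h g)
    {n : ℕ} (hn : 1200000 ≤ n) : ‖co h n‖ < (n:ℝ) ^ 2 / 3 ∧ ‖co g n‖ < (n:ℝ) ^ 2 / 3 := by
  have hnR : (1200000:ℝ) ≤ n := by exact_mod_cast hn
  have hnp : (0:ℝ) < n := by linarith
  have hk0 : 0 ≤ k := by
    have h1 := H.dil 0 (by simp)
    rw [H.h1, norm_one, mul_one] at h1
    exact (norm_nonneg _).trans h1
  set r : ℝ := 1 - 1 / n with hr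
  have hinv : 1 / (n:ℝ) ≤ 1 / 4 := one_div_le_one_div_of_le (by norm_num) (by linarith)
  have hinv0 : 0 < 1 / (n:ℝ) := by positivity
  have hr0 : 0 < r := by rw [hr]; linarith
  have hr1 : r < 1 := by rw [hr]; linarith
  have hα0 : (0:ℝ) < 9 / 4 := by norm_num
  have hG0 := GM_nonneg hα0 hr0.le hr1
  have hM : ∀ z : ℂ, ‖z‖ < r → ‖h z + conj (g z)‖ ≤ 3 / 2 * GM (9 / 4) r := by
    intro z hz
    have hz1 := hz.trans hr1
    have h1 := H.growth hα0 hα hz1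
    have h2 := GM_mono hα0 (norm_nonneg z) hz.le hr1
    have h3 := GM_nonneg hα0 (norm_nonneg z) hz1
    refine (norm_add_le _ _).trans ?_
    rw [RCLike.norm_conj]
    nlinarith [h1.1, h1.2]
  -- bound of the square
  have hX0 : (0:ℝ) < 2 * n := by positivity
  have hM2 : (3 / 2 * GM (9 / 4) r) ^ 2 ≤ 1 / 9 * ((2 * (n:ℝ)) ^ 4 * √(2 * n)) := by
    have e1 : lg r ≤ Real.log (2 * n) := by
      unfold lg
      have e2 : Real.log (1 + r) ≤ Real.log 2 := Real.log_le_log (by linarith) (by linarith)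
      have e3 : 1 - r = (n:ℝ)⁻¹ := by rw [hr]; ring
      rw [e3, Real.log_inv, Real.log_mul (by norm_num) hnp.ne']
      linarith
    have e4 : 3 / 2 * GM (9 / 4) r ≤ 1 / 3 * Real.exp (9 / 4 * lg r) := by
      unfold GM
      have e9 : (Real.exp (9 / 4 * lg r) - 1) / (2 * (9 / 4)) =
          (Real.exp (9 / 4 * lg r) - 1) * (2 / 9) := by ring
      rw [e9]
      linarith [Real.exp_pos (9 / 4 * lg r)]
    have e5 : (3 / 2 * GM (9 / 4) r) ^ 2 ≤ (1 / 3 * Real.exp (9 / 4 * lg r)) ^ 2 :=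
      pow_le_pow_left₀ (by positivity) e4 2
    refine e5.trans ?_
    have e6 : (1 / 3 * Real.exp (9 / 4 * lg r)) ^ 2 = 1 / 9 * Real.exp (9 / 2 * lg r) := by
      rw [mul_pow, ← Real.exp_nat_mul]
      norm_num
      ring
    rw [e6]
    apply mul_le_mul_of_nonneg_left _ (by norm_num)
    have e7 : Real.exp (9 / 2 * lg r) ≤ Real.exp (9 / 2 * Real.log (2 * n)) := by
      apply Real.exp_le_exp.mpr
      linarith
    refine e7.trans (le_of_eq ?_)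
    have e8 : 9 / 2 * Real.log (2 * n) = ((4:ℕ):ℝ) * Real.log (2 * n) + Real.log (2 * n) * (1 / 2) := by
      push_cast; ring
    rw [e8, Real.exp_add, Real.exp_nat_mul, Real.exp_log hX0, Real.sqrt_eq_rpow,
      Real.rpow_def_of_pos hX0]
  have hsq : √(2 * (n:ℝ)) < n / 768 := by
    rw [Real.sqrt_lt' (by positivity)]
    rw [div_pow, lt_div_iff₀ (by positivity)]
    nlinarith
  obtain ⟨m, rfl⟩ : ∃ m, n = m + 1 := ⟨n - 1, by omega⟩
  have hm1 : 1 ≤ m := le_trans (by norm_num) (Nat.le_sub_one_of_lt (Nat.lt_of_lt_of_le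
    (show 2 < 1200000 by norm_num) hn))
  have hpl : (1:ℝ) / 6 ≤ r ^ (m + 1) := pow_low hm1
  clear hn hnR
  have hpl2 : (1:ℝ) / 36 ≤ r ^ (2 * (m + 1)) := by
    rw [mul_comm, pow_mul]
    nlinarith
  have key : ∀ G : ℂ → ℂ, DifferentiableOn ℂ G (ball 0 1) →
      (∀ z : ℂ, ‖z‖ < 1 → 3 / 4 * ‖deriv G z‖ ^ 2 ≤ ‖deriv h z‖ ^ 2 - ‖deriv g z‖ ^ 2) →
      ‖co G (m + 1)‖ < ((m + 1 : ℕ) : ℝ) ^ 2 / 3 := by
    intro G hG hGJ
    have h1 := area_single H.toHarmU hr0 hr1 hM hG (by norm_num : (0:ℝ) ≤ 3 / 4) hGJ m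
    have h2 := h1.trans hM2
    set N : ℝ := ((m + 1 : ℕ) : ℝ) with hN
    have hN1 : (m:ℝ) + 1 = N := by rw [hN]; push_cast; ring
    rw [hN1] at h2
    set S : ℝ := √(2 * N) with hS
    have h3 : 3 / 4 * (N * (‖co G (m + 1)‖ ^ 2 * (1 / 36))) ≤ 1 / 9 * ((2 * N) ^ 4 * S) := by
      refine le_trans ?_ h2
      gcongr
    have h4 : 1 / 9 * ((2 * N) ^ 4 * S) < 1 / 9 * ((2 * N) ^ 4 * (N / 768)) := by
      gcongr
    have h5 : 3 / 4 * (N * (‖co G (m + 1)‖ ^ 2 * (1 / 36))) < 1 / 9 * ((2 * N) ^ 4 * (N / 768)) :=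
      lt_of_le_of_lt h3 h4
    have h6 : ‖co G (m + 1)‖ ^ 2 < (N ^ 2 / 3) ^ 2 := by
      have h7 : N * ‖co G (m + 1)‖ ^ 2 < N * (N ^ 2 / 3) ^ 2 := by
        nlinarith
      exact lt_of_mul_lt_mul_left h7 hnp.le
    exact lt_of_pow_lt_pow_left₀ 2 (by positivity) h6
  constructor
  · apply key h H.hd
    intro z hz
    have h1 := H.dil z hz
    have h2 : ‖deriv g z‖ ≤ 1 / 2 * ‖deriv h z‖ :=
      h1.trans (mul_le_mul_of_nonneg_right hk (norm_nonneg _))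
    nlinarith [norm_nonneg (deriv g z), norm_nonneg (deriv h z)]
  · apply key g H.gd
    intro z hz
    have h1 := H.dil z hz
    have h2 : ‖deriv g z‖ ≤ 1 / 2 * ‖deriv h z‖ :=
      h1.trans (mul_le_mul_of_nonneg_right hk (norm_nonneg _))
    nlinarith [norm_nonneg (deriv g z), norm_nonneg (deriv h z)]

theorem finite_n (N : ℕ) : ∃ k₀ > 0, ∀ h g : ℂ → ℂ, SH k₀ h g → ∀ n : ℕ, 2 ≤ n → n < N →
    ‖co h n‖ + ‖co g n‖ < (2 * (n:ℝ) ^ 2 + 1) / 3 := by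
  induction N with
  | zero => exact ⟨1, one_pos, fun h g _ n _ hn => absurd hn (by omega)⟩
  | succ N ih =>
    obtain ⟨k₁, hk1, h1⟩ := ih
    rcases lt_or_ge N 2 with hN | hN
    · refine ⟨k₁, hk1, fun h g H n hn2 hn => ?_⟩
      exact absurd hn (by omega)
    · obtain ⟨k₂, hk2, h2⟩ := exists_single hN
      refine ⟨min k₁ k₂, lt_min hk1 hk2, fun h g H n hn2 hn => ?_⟩
      rcases eq_or_lt_of_le (Nat.lt_succ_iff.mp hn) with h3 | h3
      · rw [h3]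
        exact h2 h g (H.mono (min_le_right _ _))
      · exact h1 h g (H.mono (min_le_left _ _)) n hn2 h3

/-- All coefficients, for small dilatation. -/
theorem all_n : ∃ k₀ > 0, ∀ h g : ℂ → ℂ, SH k₀ h g → ∀ n : ℕ, 2 ≤ n →
    ‖co h n‖ + ‖co g n‖ < (2 * (n:ℝ) ^ 2 + 1) / 3 := by
  obtain ⟨k₁, hk1, h1⟩ := finite_n 1200000
  obtain ⟨k₂, hk2, h2⟩ := exists_ordLe (show (2:ℝ) < 9 / 4 by norm_num)
  refine ⟨min (min k₁ k₂) (1 / 2), lt_min (lt_min hk1 hk2) (by norm_num), fun h g H n hn => ?_⟩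
  rcases lt_or_ge n 1200000 with hlt | hge
  · exact h1 h g (H.mono ((min_le_left _ _).trans (min_le_left _ _))) n hn hlt
  · have hα : OrdLe (min (min k₁ k₂) (1 / 2)) (9 / 4) := fun h g H =>
      h2 h g (H.mono ((min_le_left _ _).trans (min_le_right _ _)))
    have h3 := large_n (min_le_right _ _) hα H hge
    linarith [h3.1, h3.2]

end Pool.Agent.HS85
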