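import Pool.Agent.HS85.Little
import Mathlib

/-!
Compactness: limits of univalent harmonic maps whose dilatations tend to zero.
-/

set_option autoImplicit false

open Complex Metric Set Filter Topology MeasureTheory
open scoped ComplexConjugate Real NNReal

namespace Pool.Agent.HS85

open Pool.Agent.HU26 (FC mean pt norm_pt pt_mem_ball mean_const mean_mono norm_FC_le)
open Pool.Agent.HU85

theorem ordLe_ten (k : ℝ) : OrdLe k 10 := by
  intro h g H
  have h1 := (H.toHarmU.second H.h1).1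
  have h2 := H.lt 0 (by simp)
  rw [H.h1, norm_one] at h2
  linarith

theorem cauchy_co {F : ℂ → ℂ} (hF : DifferentiableOn ℂ F (ball 0 1)) {r M : ℝ} (hr0 : 0 < r)
    (hr1 : r < 1) (hM : ∀ z : ℂ, ‖z‖ = r → ‖F z‖ ≤ M) (n : ℕ) : ‖co F n‖ * r ^ n ≤ M := by
  have h7 := fc_nat hF (t := r) ⟨hr0, hr1⟩ n
  have h8 := norm_FC_le (fun x => F (pt r x)) (n:ℤ)
  rw [h7, norm_mul, norm_pow, Complex.norm_real, Real.norm_of_nonneg hr0.le] at h8
  have hc : Continuous (fun x => ‖F (pt r x)‖) := by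
    have hptc : Continuous (fun x : ℝ => pt r x) := by unfold pt; fun_prop
    exact (hF.continuousOn.comp_continuous hptc (fun x => pt_mem_ball x ⟨by linarith, hr1⟩)).norm
  refine h8.trans ?_
  have := mean_mono hc (continuous_const (y := M)) (fun x => hM _ (by rw [norm_pt, abs_of_pos hr0]))
  rwa [mean_const] at this

theorem hasSum_co {F : ℂ → ℂ} (hF : DifferentiableOn ℂ F (ball 0 1)) {z : ℂ} (hz : ‖z‖ < 1) :
    HasSum (fun n => co F n * z ^ n) (F z) := by
  have h1 := Complex.hasSum_taylorSeries_on_ball (f := F) (c := 0) (r := 1) (by simpa using hF)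
    (z := z) (by simpa using hz)
  have h2 : (fun n => co F n * z ^ n) =
      fun n : ℕ => (n.factorial : ℂ)⁻¹ • (z - 0) ^ n • iteratedDeriv n F 0 := by
    funext n
    unfold co
    rw [sub_zero, smul_eq_mul, smul_eq_mul]
    field_simp
  rw [h2]
  exact h1

theorem lg_mono {r s : ℝ} (h0 : 0 ≤ r) (hrs : r ≤ s) (hs : s < 1) : lg r ≤ lg s := by
  unfold lg
  have h1 := Real.log_le_log (by linarith : 0 < 1 + r) (by linarith : 1 + r ≤ 1 + s)
  have h2 := Real.log_le_log (by linarith : 0 < 1 - s) (by linarith : 1 - s ≤ 1 - r)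
  linarith

theorem GM_mono {α r s : ℝ} (hα : 0 < α) (h0 : 0 ≤ r) (hrs : r ≤ s) (hs : s < 1) :
    GM α r ≤ GM α s := by
  unfold GM
  have h1 := lg_mono h0 hrs hs
  gcongr

theorem GM_nonneg {α r : ℝ} (hα : 0 < α) (h0 : 0 ≤ r) (hr : r < 1) : 0 ≤ GM α r := by
  have h1 := GM_mono hα (le_refl 0) h0 hr
  have h2 : GM α 0 = 0 := by simp [GM, lg]
  rwa [h2] at h1

theorem tlu_of {U : Filter ℕ} {F : ℕ → ℂ → ℂ} {f : ℂ → ℂ}
    (h : ∀ r ∈ Ioo (0:ℝ) 1, ∀ ε > 0, ∀ᶠ j in U, ∀ z : ℂ, ‖z‖ ≤ r → ‖f z - F j z‖ < ε) :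
    TendstoLocallyUniformlyOn F f U (ball 0 1) := by
  rw [Metric.tendstoLocallyUniformlyOn_iff]
  intro ε hε x hx
  rw [mem_ball_zero_iff] at hx
  have hr : (1 + ‖x‖) / 2 ∈ Ioo (0:ℝ) 1 := ⟨by positivity, by linarith⟩
  refine ⟨ball 0 ((1 + ‖x‖) / 2), mem_nhdsWithin_of_mem_nhds (isOpen_ball.mem_nhds ?_), ?_⟩
  · rw [mem_ball_zero_iff]; linarith
  · filter_upwards [h _ hr ε hε] with j hj y hy
    rw [mem_ball_zero_iff] at hy
    rw [dist_eq_norm]
    exact hj y hy.le

theorem tlu_pt {U : Filter ℕ} {F : ℕ → ℂ → ℂ} {f : ℂ → ℂ}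
    (h : TendstoLocallyUniformlyOn F f U (ball 0 1)) {z : ℂ} (hz : z ∈ ball (0:ℂ) 1) :
    Tendsto (fun j => F j z) U (𝓝 (f z)) := h.tendsto_at hz

/-- limits of injective harmonic maps -/
theorem inj_limit {U : Filter ℕ} [NeBot U] {hs gs : ℕ → ℂ → ℂ} {H : ℂ → ℂ}
    (hd : ∀ j, DifferentiableOn ℂ (hs j) (ball 0 1))
    (gd : ∀ j, DifferentiableOn ℂ (gs j) (ball 0 1))
    (inj : ∀ j, InjOn (fun z => hs j z + conj (gs j z)) (ball 0 1))
    (hH : TendstoLocallyUniformlyOn hs H U (ball 0 1))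
    (hG : TendstoLocallyUniformlyOn gs (fun _ => 0) U (ball 0 1))
    (hne : ∀ z ∈ ball (0:ℂ) 1, deriv H z ≠ 0) : InjOn H (ball 0 1) := by
  have hHd : DifferentiableOn ℂ H (ball 0 1) :=
    hH.differentiableOn (Eventually.of_forall hd) isOpen_ball
  have hH' := hH.deriv (Eventually.of_forall hd) isOpen_ball
  have hG' := hG.deriv (Eventually.of_forall gd) isOpen_ball
  intro z₁ hz1 z₂ hz2 heq
  by_contra hne12
  set c : ℂ := deriv H z₁ with hc
  have hc0 : c ≠ 0 := hne z₁ hz1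
  have hcn : 0 < ‖c‖ := norm_pos_iff.mpr hc0
  -- choose a radius
  have hcont : ContinuousAt (deriv H) z₁ :=
    ((hHd.deriv isOpen_ball).continuousOn.continuousAt (isOpen_ball.mem_nhds hz1))
  obtain ⟨δ₁, hδ1, hδ1b⟩ := Metric.continuousAt_iff.mp hcont (‖c‖ / 8) (by positivity)
  obtain ⟨δ₂, hδ2, hδ2b⟩ := Metric.isOpen_iff.mp isOpen_ball z₁ hz1
  have hd12 : 0 < dist z₁ z₂ := dist_pos.mpr hne12
  obtain ⟨δ, hδ0, hδl⟩ : ∃ δ, 0 < δ ∧ δ < min (min δ₁ δ₂) (dist z₁ z₂) :=
    exists_between (lt_min (lt_min hδ1 hδ2) hd12)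
  have hl1 : δ < δ₁ := hδl.trans_le ((min_le_left _ _).trans (min_le_left _ _))
  have hl2 : δ < δ₂ := hδl.trans_le ((min_le_left _ _).trans (min_le_right _ _))
  have hl3 : δ < dist z₁ z₂ := hδl.trans_le (min_le_right _ _)
  have hsub : closedBall z₁ δ ⊆ ball (0:ℂ) 1 := fun z hz =>
    hδ2b (lt_of_le_of_lt (mem_closedBall.mp hz) hl2)
  have hK : IsCompact (closedBall z₁ δ) := isCompact_closedBall _ _
  have u1 := (tendstoLocallyUniformlyOn_iff_forall_isCompact isOpen_ball).mp hH' _ hsub hK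
  have u2 := (tendstoLocallyUniformlyOn_iff_forall_isCompact isOpen_ball).mp hG' _ hsub hK
  have e1 := Metric.tendstoUniformlyOn_iff.mp u1 (‖c‖ / 8) (by positivity)
  have e2 := Metric.tendstoUniformlyOn_iff.mp u2 (‖c‖ / 4) (by positivity)
  -- values
  have t1 : Tendsto (fun j => hs j z₁ + conj (gs j z₁)) U (𝓝 (H z₁)) := by
    have := (tlu_pt hH hz1).add ((Complex.continuous_conj.tendsto _).comp (tlu_pt hG hz1))
    simpa using this
  have t2 : Tendsto (fun j => hs j z₂ + conj (gs j z₂)) U (𝓝 (H z₂)) := by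
    have := (tlu_pt hH hz2).add ((Complex.continuous_conj.tendsto _).comp (tlu_pt hG hz2))
    simpa using this
  have t3 : Tendsto (fun j => dist (hs j z₂ + conj (gs j z₂)) (hs j z₁ + conj (gs j z₁))) U
      (𝓝 0) := by
    have := t2.dist t1
    rwa [heq, dist_self] at this
  have e3 : ∀ᶠ j in U, dist (hs j z₂ + conj (gs j z₂)) (hs j z₁ + conj (gs j z₁)) <
      ‖c‖ / 2 * δ := by
    apply t3.eventually_lt_const
    positivity
  obtain ⟨j, hj1, hj2, hj3⟩ := (e1.and (e2.and e3)).exists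
  set f : ℂ → ℂ := fun z => hs j z + conj (gs j z) with hf
  set L : ℂ →L[ℝ] ℂ := ContinuousLinearMap.mul ℝ ℂ c with hL
  have hLy : ∀ y, L y = c * y := fun y => rfl
  have hconv := convex_closedBall z₁ δ
  have happ : ApproximatesLinearOn f L (closedBall z₁ δ) (‖c‖₊ / 2) := by
    intro x hx y hy
    have a1 : ‖(hs j x - c * x) - (hs j y - c * y)‖ ≤ ‖c‖ / 4 * ‖x - y‖ := by
      apply hconv.norm_image_sub_le_of_norm_hasDerivWithin_le (f := fun z => hs j z - c * z)
        (f' := fun z => deriv (hs j) z - c) _ _ hy hx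
      · intro z hz
        have := (hasDerivAt_of (hd j) (hsub hz)).sub ((hasDerivAt_id z).const_mul c)
        exact (this.congr_deriv (by simp)).hasDerivWithinAt
      · intro z hz
        have b1 := hj1 z hz
        have b2 := hδ1b (x := z) (lt_of_le_of_lt (mem_closedBall.mp hz) hl1)
        rw [dist_comm, dist_eq_norm] at b1
        rw [dist_eq_norm] at b2
        simp only [Function.comp_apply] at b1
        calc ‖deriv (hs j) z - c‖ = ‖(deriv (hs j) z - deriv H z) + (deriv H z - c)‖ := by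
              congr 1; ring
          _ ≤ ‖deriv (hs j) z - deriv H z‖ + ‖deriv H z - c‖ := norm_add_le _ _
          _ ≤ ‖c‖ / 8 + ‖c‖ / 8 := add_le_add b1.le b2.le
          _ = ‖c‖ / 4 := by ring
    have a2 : ‖gs j x - gs j y‖ ≤ ‖c‖ / 4 * ‖x - y‖ := by
      apply hconv.norm_image_sub_le_of_norm_hasDerivWithin_le (f := gs j)
        (f' := fun z => deriv (gs j) z) _ _ hy hx
      · intro z hz
        exact (hasDerivAt_of (gd j) (hsub hz)).hasDerivWithinAt
      · intro z hz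
        have b1 := hj2 z hz
        rw [dist_comm, dist_eq_norm] at b1
        simp only [Function.comp_apply, deriv_const, sub_zero] at b1
        exact b1.le
    rw [hLy]
    simp only [hf]
    have a3 : hs j x + conj (gs j x) - (hs j y + conj (gs j y)) - c * (x - y) =
        ((hs j x - c * x) - (hs j y - c * y)) + conj (gs j x - gs j y) := by
      rw [map_sub]; ring
    rw [a3]
    refine (norm_add_le _ _).trans ?_
    rw [RCLike.norm_conj]
    have : ((‖c‖₊ / 2 : ℝ≥0) : ℝ) = ‖c‖ / 2 := by simp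
    rw [this]
    linarith
  let hinv : ContinuousLinearMap.NonlinearRightInverse L :=
    { toFun := fun y => c⁻¹ * y
      nnnorm := ‖c⁻¹‖₊
      bound' := fun y => by rw [norm_mul]; rfl
      right_inv' := fun y => by rw [hLy, mul_inv_cancel_left₀ hc0] }
  have hnn : (hinv.nnnorm : ℝ) = ‖c‖⁻¹ := by
    show ((‖c⁻¹‖₊ : ℝ≥0) : ℝ) = _
    simp
  have hsurj := happ.surjOn_closedBall_of_nonlinearRightInverse hinv hδ0.le (subset_refl _)
  rw [hnn, inv_inv] at hsurj
  have hmem : f z₂ ∈ closedBall (f z₁) ((‖c‖ - ((‖c‖₊ / 2 : ℝ≥0) : ℝ)) * δ) := by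
    rw [mem_closedBall]
    have e5 : ((‖c‖₊ / 2 : ℝ≥0) : ℝ) = ‖c‖ / 2 := by simp
    rw [e5]
    have e6 : (‖c‖ - ‖c‖ / 2) * δ = ‖c‖ / 2 * δ := by ring
    rw [e6]
    exact hj3.le
  obtain ⟨w, hw, hfw⟩ := hsurj hmem
  have hwz : w = z₂ := inj j (hsub hw) hz2 hfw
  rw [hwz, mem_closedBall, dist_comm] at hw
  linarith

theorem iter_tlu {U : Filter ℕ} [NeBot U] {F : ℕ → ℂ → ℂ} {f : ℂ → ℂ}
    (hd : ∀ j, DifferentiableOn ℂ (F j) (ball 0 1))
    (h : TendstoLocallyUniformlyOn F f U (ball 0 1)) (n : ℕ) :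
    Tendsto (fun j => co (F j) n) U (𝓝 (co f n)) := by
  have h0b : (0:ℂ) ∈ ball (0:ℂ) 1 := by simp
  have key : ∀ n : ℕ, (∀ j, DifferentiableOn ℂ (iteratedDeriv n (F j)) (ball 0 1)) ∧
      TendstoLocallyUniformlyOn (fun j => iteratedDeriv n (F j)) (iteratedDeriv n f) U
        (ball 0 1) := by
    intro n
    induction n with
    | zero =>
      simp only [iteratedDeriv_zero]
      exact ⟨hd, h⟩
    | succ n ih =>
      simp only [iteratedDeriv_succ]
      exact ⟨fun j => (ih.1 j).deriv isOpen_ball,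
        ih.2.deriv (Eventually.of_forall ih.1) isOpen_ball⟩
  unfold co
  exact (tlu_pt (key n).2 h0b).div_const _

/-- limits along an ultrafilter -/
theorem exists_limit {ks : ℕ → ℝ} (hk : Tendsto ks atTop (𝓝 0)) {hs gs : ℕ → ℂ → ℂ}
    (HS : ∀ j, SH (ks j) (hs j) (gs j)) :
    ∃ (U : Filter ℕ) (H : ℂ → ℂ), NeBot U ∧ U ≤ atTop ∧ SH 0 H (fun _ => 0) ∧
      (∀ n, Tendsto (fun j => co (hs j) n) U (𝓝 (co H n))) ∧
      (∀ n, Tendsto (fun j => co (gs j) n) U (𝓝 0)) := by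
  set U : Ultrafilter ℕ := hyperfilter ℕ with hU
  have hUle : (U : Filter ℕ) ≤ atTop := Nat.hyperfilter_le_atTop
  have hkU : Tendsto ks U (𝓝 0) := hk.mono_left hUle
  have hα : (0:ℝ) < 10 := by norm_num
  have hgr : ∀ j, ∀ z : ℂ, ‖z‖ < 1 → ‖hs j z‖ ≤ GM 10 ‖z‖ ∧ ‖gs j z‖ ≤ ks j * GM 10 ‖z‖ :=
    fun j z hz => (HS j).growth hα (ordLe_ten _) hz
  have hk0 : ∀ j, 0 ≤ ks j := by
    intro j
    have h1 := (HS j).dil 0 (by simp)
    rw [(HS j).h1, norm_one, mul_one] at h1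
    exact (norm_nonneg _).trans h1
  have hco : ∀ j n, ∀ r ∈ Ioo (0:ℝ) 1, ‖co (hs j) n‖ * r ^ n ≤ GM 10 r := fun j n r hr =>
    cauchy_co (HS j).hd hr.1 hr.2 (fun z hz => by
      rw [← hz]; exact (hgr j z (by rw [hz]; exact hr.2)).1) n
  have hcg : ∀ j n, ∀ r ∈ Ioo (0:ℝ) 1, ‖co (gs j) n‖ * r ^ n ≤ ks j * GM 10 r := fun j n r hr =>
    cauchy_co (HS j).gd hr.1 hr.2 (fun z hz => by
      rw [← hz]; exact (hgr j z (by rw [hz]; exact hr.2)).2) n
  -- limits of coefficients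
  have hlim : ∀ n : ℕ, ∃ A : ℂ, Tendsto (fun j => co (hs j) n) U (𝓝 A) := by
    intro n
    have h1 : ∀ j, co (hs j) n ∈ closedBall (0:ℂ) (GM 10 (1 / 2) / (1 / 2) ^ n) := by
      intro j
      rw [mem_closedBall_zero_iff, le_div_iff₀ (by positivity)]
      exact hco j n (1 / 2) ⟨by norm_num, by norm_num⟩
    have h2 : (U.map (fun j => co (hs j) n) : Filter ℂ) ≤
        𝓟 (closedBall (0:ℂ) (GM 10 (1 / 2) / (1 / 2) ^ n)) := by
      rw [le_principal_iff]
      show ∀ᶠ j in (U : Filter ℕ), co (hs j) n ∈ closedBall (0:ℂ) (GM 10 (1 / 2) / (1 / 2) ^ n)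
      exact Eventually.of_forall h1
    obtain ⟨A, _, hA⟩ := (isCompact_closedBall (0:ℂ) _).ultrafilter_le_nhds
      (U.map (fun j => co (hs j) n)) h2
    exact ⟨A, hA⟩
  choose A hA using hlim
  have hAb : ∀ n, ∀ r ∈ Ioo (0:ℝ) 1, ‖A n‖ * r ^ n ≤ GM 10 r := by
    intro n r hr
    exact le_of_tendsto ((hA n).norm.mul_const (r ^ n)) (Eventually.of_forall fun j => hco j n r hr)
  -- the limit function
  set H : ℂ → ℂ := fun z => ∑' n, A n * z ^ n with hH
  have hsumA : ∀ z : ℂ, ‖z‖ < 1 → Summable (fun n => A n * z ^ n) := by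
    intro z hz
    set s : ℝ := (1 + ‖z‖) / 2 with hs'
    have hs0 : 0 < s := by positivity
    have hs1 : s < 1 := by rw [hs']; linarith
    have hq : ‖z‖ / s < 1 := by rw [div_lt_one hs0, hs']; linarith
    refine Summable.of_norm_bounded
      ((summable_geometric_of_lt_one (by positivity) hq).mul_left (GM 10 s)) ?_
    intro n
    rw [norm_mul, norm_pow, div_pow]
    have h1 := hAb n s ⟨hs0, hs1⟩
    calc ‖A n‖ * ‖z‖ ^ n = (‖A n‖ * s ^ n) * (‖z‖ ^ n / s ^ n) := by field_simp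
      _ ≤ GM 10 s * (‖z‖ ^ n / s ^ n) := by gcongr
  have hunif : ∀ r ∈ Ioo (0:ℝ) 1, ∀ ε > 0, ∀ᶠ j in (U : Filter ℕ), ∀ z : ℂ, ‖z‖ ≤ r →
      ‖H z - hs j z‖ < ε := by
    intro r hr ε hε
    set s : ℝ := (1 + r) / 2 with hs'
    have hs0 : 0 < s := by have := hr.1; positivity
    have hs1 : s < 1 := by rw [hs']; linarith [hr.2]
    have hq : r / s < 1 := by rw [div_lt_one hs0, hs']; linarith [hr.2]
    have hq0 : 0 ≤ r / s := div_nonneg hr.1.le hs0.le
    have hsum : Summable (fun n : ℕ => 2 * GM 10 s * (r / s) ^ n) :=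
      (summable_geometric_of_lt_one hq0 hq).mul_left _
    have hbd : ∀ j n, ‖A n - co (hs j) n‖ * r ^ n ≤ 2 * GM 10 s * (r / s) ^ n := by
      intro j n
      have h1 := hAb n s ⟨hs0, hs1⟩
      have h2 := hco j n s ⟨hs0, hs1⟩
      have h3 : ‖A n - co (hs j) n‖ * s ^ n ≤ 2 * GM 10 s := by
        have := norm_sub_le (A n) (co (hs j) n)
        calc ‖A n - co (hs j) n‖ * s ^ n ≤ (‖A n‖ + ‖co (hs j) n‖) * s ^ n := by gcongr
          _ = ‖A n‖ * s ^ n + ‖co (hs j) n‖ * s ^ n := by ring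
          _ ≤ _ := by linarith
      have hr0 := hr.1
      have h6 : s * (r / s) = r := mul_div_cancel₀ r hs0.ne'
      calc ‖A n - co (hs j) n‖ * r ^ n = (‖A n - co (hs j) n‖ * s ^ n) * (r / s) ^ n := by
            rw [mul_assoc, ← mul_pow, h6]
        _ ≤ _ := by gcongr
    have ht := tendsto_tsum_of_dominated_convergence (𝓕 := (U : Filter ℕ))
      (f := fun j n => ‖A n - co (hs j) n‖ * r ^ n) (g := fun _ => (0:ℝ))
      (bound := fun n => 2 * GM 10 s * (r / s) ^ n) hsum ?_ ?_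
    · rw [tsum_zero] at ht
      filter_upwards [ht.eventually_lt_const hε] with j hj z hz
      have hz1 : ‖z‖ < 1 := hz.trans_lt hr.2
      have hS : Summable (fun n => ‖A n - co (hs j) n‖ * r ^ n) :=
        Summable.of_nonneg_of_le (fun n => by have := hr.1; positivity) (hbd j) hsum
      have h4 : H z - hs j z = ∑' n, (A n - co (hs j) n) * z ^ n := by
        have h5 := (hsumA z hz1).hasSum.sub (hasSum_co (HS j).hd hz1)
        rw [← h5.tsum_eq]
        congr 1
        funext n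
        ring
      rw [h4]
      refine lt_of_le_of_lt (tsum_of_norm_bounded hS.hasSum ?_) hj
      intro n
      rw [norm_mul, norm_pow]
      gcongr
    · intro n
      have h1 : Tendsto (fun j => A n - co (hs j) n) U (𝓝 (A n - A n)) :=
        (tendsto_const_nhds).sub (hA n)
      have h2 := h1.norm.mul_const (r ^ n)
      simpa using h2
    · refine Eventually.of_forall fun j n => ?_
      rw [Real.norm_of_nonneg (by have := hr.1; positivity)]
      exact hbd j n
  have hHl : TendstoLocallyUniformlyOn hs H U (ball 0 1) := tlu_of hunif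
  have hGl : TendstoLocallyUniformlyOn gs (fun _ => 0) U (ball 0 1) := by
    apply tlu_of
    intro r hr ε hε
    have h1 : Tendsto (fun j => ks j * GM 10 r) U (𝓝 (0 * GM 10 r)) := hkU.mul_const _
    rw [zero_mul] at h1
    filter_upwards [h1.eventually_lt_const hε] with j hj z hz
    rw [zero_sub, norm_neg]
    refine lt_of_le_of_lt ((hgr j z (hz.trans_lt hr.2)).2.trans ?_) hj
    exact mul_le_mul_of_nonneg_left (GM_mono hα (norm_nonneg z) hz hr.2) (hk0 j)
  have hds : ∀ j, DifferentiableOn ℂ (hs j) (ball 0 1) := fun j => (HS j).hd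
  have hHd : DifferentiableOn ℂ H (ball 0 1) :=
    hHl.differentiableOn (Eventually.of_forall hds) isOpen_ball
  have hH' := hHl.deriv (Eventually.of_forall hds) isOpen_ball
  have h0b : (0:ℂ) ∈ ball (0:ℂ) 1 := by simp
  have hpos : ∀ z ∈ ball (0:ℂ) 1, 0 < ‖deriv H z‖ := by
    intro z hz
    have hz1 : ‖z‖ < 1 := by simpa using hz
    have h1 : Real.exp (-(10 * lg ‖z‖)) / (1 - ‖z‖ ^ 2) ≤ ‖deriv H z‖ :=
      ge_of_tendsto (tlu_pt hH' hz).norm (Eventually.of_forall fun j =>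
        ((HS j).log_bound (ordLe_ten _) hz1).1)
    refine lt_of_lt_of_le ?_ h1
    have : 0 < 1 - ‖z‖ ^ 2 := by nlinarith [norm_nonneg z]
    positivity
  have hinj : InjOn H (ball 0 1) := inj_limit hds (fun j => (HS j).gd) (fun j => (HS j).inj) hHl hGl
    (fun z hz => norm_pos_iff.mp (hpos z hz))
  refine ⟨U, H, inferInstance, hUle, ⟨⟨hHd, differentiableOn_const 0, ?_, ?_⟩, ?_, rfl, ?_, ?_⟩,
    ?_, ?_⟩
  · intro z hz
    rw [deriv_const, norm_zero]
    exact hpos z hz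
  · intro z₁ h1 z₂ h2 heq
    simp only [map_zero, add_zero] at heq
    exact hinj h1 h2 heq
  · have h1 := tlu_pt hHl h0b
    have h2 : (fun j => hs j 0) = fun _ => 0 := by funext j; exact (HS j).h0
    rw [h2] at h1
    exact (tendsto_nhds_unique h1 tendsto_const_nhds)
  · have h1 := tlu_pt hH' h0b
    have h2 : (fun j => (deriv ∘ hs) j 0) = fun _ => 1 := by funext j; exact (HS j).h1
    rw [h2] at h1
    exact (tendsto_nhds_unique h1 tendsto_const_nhds)
  · intro z _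
    rw [deriv_const, norm_zero, zero_mul]
  · intro n
    exact iter_tlu hds hHl n
  · intro n
    have h1 : Tendsto (fun j => ks j * GM 10 (1 / 2) / (1 / 2) ^ n) U (𝓝 0) := by
      have := (hkU.mul_const (GM 10 (1 / 2))).div_const ((1 / 2) ^ n)
      rw [zero_mul, zero_div] at this
      exact this
    rw [tendsto_zero_iff_norm_tendsto_zero]
    refine squeeze_zero (fun j => norm_nonneg _) (fun j => ?_) h1
    rw [le_div_iff₀ (by positivity)]
    exact hcg j n (1 / 2) ⟨by norm_num, by norm_num⟩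

/-- the order is close to two when the dilatation is small -/
theorem exists_ordLe {α : ℝ} (hα : 2 < α) : ∃ k₀ > 0, OrdLe k₀ α := by
  by_contra hcon
  push Not at hcon
  have h1 : ∀ j : ℕ, ∃ h g : ℂ → ℂ, SH (1 / ((j:ℝ) + 1)) h g ∧ 2 * α < ‖deriv (deriv h) 0‖ := by
    intro j
    have h2 := hcon (1 / ((j:ℝ) + 1)) (by positivity)
    unfold OrdLe at h2
    push Not at h2
    exact h2
  choose hs gs HS hb using h1
  obtain ⟨U, H, hne, hU, hSH, hc1, hc2⟩ := exists_limit tendsto_one_div_add_atTop_nhds_zero_nat HS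
  have h3 := (bieb hSH.zero hSH.h0 hSH.h1).1
  have h4 := (hc1 2).norm
  have h5 : α ≤ ‖co H 2‖ := by
    refine ge_of_tendsto h4 (Eventually.of_forall fun j => ?_)
    have := hb j
    rw [norm_dd] at this
    linarith
  linarith

/-- each single coefficient is fine when the dilatation is small -/
theorem exists_single {n : ℕ} (hn : 2 ≤ n) : ∃ k₀ > 0, ∀ h g : ℂ → ℂ, SH k₀ h g →
    ‖co h n‖ + ‖co g n‖ < (2 * (n:ℝ) ^ 2 + 1) / 3 := by
  by_contra hcon
  push Not at hcon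
  have h1 : ∀ j : ℕ, ∃ h g : ℂ → ℂ, SH (1 / ((j:ℝ) + 1)) h g ∧
      (2 * (n:ℝ) ^ 2 + 1) / 3 ≤ ‖co h n‖ + ‖co g n‖ := fun j => hcon _ (by positivity)
  choose hs gs HS hb using h1
  obtain ⟨U, H, hne, hU, hSH, hc1, hc2⟩ := exists_limit tendsto_one_div_add_atTop_nhds_zero_nat HS
  have h3 := analytic_coeff hSH hn
  have h4 := (hc1 n).norm.add (hc2 n).norm
  rw [norm_zero, add_zero] at h4
  have h5 := ge_of_tendsto h4 (Eventually.of_forall hb)
  linarith

end Pool.Agent.HS85
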