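import Pool.Agent.HS85.Bieb
import Mathlib

/-!
Integral means of univalent functions and Littlewood's coefficient bound.
-/

set_option autoImplicit false

open Complex Metric Set Filter Topology MeasureTheory
open scoped ComplexConjugate Real

namespace Pool.Agent.HS85

open Pool.Agent.HU26 (FC mean pt norm_pt pt_mem_ball Har hm Jac Bf Ff Ft Fx wV mean_const
  mean_mono stokes har_id hasDerivAt_mean norm_FC_le mean_const_mul)
open Pool.Agent.HU85

/-- regularised weight -/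
noncomputable def Vl (ε ρ : ℝ) : ℝ := (ρ + ε) ^ (-(1 / 2) : ℝ)
/-- its derivative -/
noncomputable def Vl' (ε ρ : ℝ) : ℝ := -(1 / 2) * (ρ + ε) ^ (-(3 / 2) : ℝ)

theorem Vl_hasDerivAt {ε : ℝ} (hε : 0 < ε) (ρ : ℝ) (hρ : 0 ≤ ρ) :
    HasDerivAt (Vl ε) (Vl' ε ρ) ρ := by
  have h1 : HasDerivAt (fun ρ : ℝ => ρ + ε) 1 ρ := (hasDerivAt_id ρ).add_const ε
  have h2 := h1.rpow_const (p := (-(1 / 2) : ℝ)) (Or.inl (by positivity))
  refine h2.congr_deriv ?_
  unfold Vl'
  rw [show (-(1 / 2) : ℝ) - 1 = -(3 / 2) by norm_num]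
  ring

theorem Vl'_cont {ε : ℝ} (hε : 0 < ε) : ContinuousOn (Vl' ε) (Ici 0) := by
  unfold Vl'
  apply ContinuousOn.mul continuousOn_const
  apply ContinuousOn.rpow_const (by fun_prop)
  intro x hx
  left
  have : 0 ≤ x := hx
  positivity

theorem Vl_cont {ε : ℝ} (hε : 0 < ε) : ContinuousOn (Vl ε) (Ici 0) := fun ρ hρ =>
  (Vl_hasDerivAt hε ρ hρ).continuousAt.continuousWithinAt

theorem Vl_eq {ε ρ : ℝ} (hε : 0 < ε) (hρ : 0 ≤ ρ) : Vl ε ρ = (√(ρ + ε))⁻¹ := by
  unfold Vl
  rw [Real.rpow_neg (by positivity), ← Real.sqrt_eq_rpow]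

theorem wVl {ε ρ : ℝ} (hε : 0 < ε) (hρ : 0 ≤ ρ) : 0 ≤ wV (Vl ε) (Vl' ε) ρ := by
  unfold wV Vl Vl'
  have hp : 0 < ρ + ε := by positivity
  have h1 : (ρ + ε) ^ (-(1 / 2) : ℝ) = (ρ + ε) * (ρ + ε) ^ (-(3 / 2) : ℝ) := by
    rw [show (-(1 / 2) : ℝ) = 1 + -(3 / 2) by norm_num, Real.rpow_add hp, Real.rpow_one]
  rw [h1]
  have h2 : 0 < (ρ + ε) ^ (-(3 / 2) : ℝ) := Real.rpow_pos_of_pos hp _
  have h3 : 2 * ρ * (-(1 / 2) * (ρ + ε) ^ (-(3 / 2) : ℝ)) +
      2 * ((ρ + ε) * (ρ + ε) ^ (-(3 / 2) : ℝ)) = (ρ + 2 * ε) * (ρ + ε) ^ (-(3 / 2) : ℝ) := by ring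
  rw [h3]
  positivity

theorem int_ball_l {M ε : ℝ} (hM : 0 < M) (hε : 0 < ε) :
    (1 / (2 * π)) * ∫ y in ball (0 : ℂ) M, wV (Vl ε) (Vl' ε) (‖y‖ ^ 2) ≤ M := by
  have hd : ∀ z : ℂ, deriv (fun z => (M : ℂ) * z) z = M := by
    intro z
    have := (hasDerivAt_id z).const_mul (M : ℂ)
    simpa using this.deriv
  have h1 := stokes (har_id hM) (fun ρ hρ => Vl_hasDerivAt hε ρ hρ) (Vl'_cont hε)
  have h2 : hm (fun z => (M : ℂ) * z) (fun _ => 0) '' ball (0 : ℂ) 1 = ball 0 M := by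
    ext y
    simp only [mem_image, mem_ball_zero_iff, hm, map_zero, add_zero]
    have hMc : (M : ℂ) ≠ 0 := by exact_mod_cast hM.ne'
    constructor
    · rintro ⟨z, hz, rfl⟩
      rw [norm_mul, Complex.norm_real, Real.norm_of_nonneg hM.le]
      calc M * ‖z‖ < M * 1 := mul_lt_mul_of_pos_left hz hM
        _ = M := mul_one M
    · intro hy
      refine ⟨y / M, ?_, by field_simp⟩
      rw [norm_div, Complex.norm_real, Real.norm_of_nonneg hM.le, div_lt_one hM]
      exact hy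
  rw [h2] at h1
  rw [← h1]
  have h3 : Bf (Vl ε) (fun z => (M : ℂ) * z) (fun _ => 0) 1
      = fun _ => Vl ε (M ^ 2) * M ^ 2 := by
    funext x
    unfold Bf Ff Fx hm
    have hn : ‖pt 1 x‖ = 1 := by rw [norm_pt, abs_one]
    have hn2 : (starRingEnd ℂ) (pt 1 x) * pt 1 x = 1 := by
      rw [← Complex.normSq_eq_conj_mul_self, Complex.normSq_eq_norm_sq, hn]; norm_num
    rw [hd, deriv_const]
    simp only [map_zero, add_zero, zero_mul]
    congr 2
    · rw [norm_mul, hn, Complex.norm_real, Real.norm_of_nonneg hM.le, mul_one]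
    · rw [map_mul, Complex.conj_ofReal,
        show (M : ℂ) * (starRingEnd ℂ) (pt 1 x) * (M * (I * pt 1 x))
          = M * M * I * ((starRingEnd ℂ) (pt 1 x) * pt 1 x) by ring, hn2, mul_one,
        ← Complex.ofReal_mul, Complex.im_ofReal_mul, Complex.I_im]
      ring
  rw [h3, mean_const, Vl_eq hε (by positivity)]
  have h4 : M ≤ √(M ^ 2 + ε) := Real.le_sqrt_of_sq_le (by linarith)
  have h5 : 0 < √(M ^ 2 + ε) := hM.trans_le h4
  rw [inv_mul_le_iff₀ h5]
  nlinarith

theorem mean_Bf_le {R : ℝ} {h g : ℂ → ℂ} (D : Har R h g) {M ε : ℝ} (hM : 0 < M) (hε : 0 < ε)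
    (hb : ∀ z ∈ ball (0:ℂ) 1, ‖hm h g z‖ < M) : mean (Bf (Vl ε) h g 1) ≤ M := by
  have himg : hm h g '' ball (0 : ℂ) 1 ⊆ ball 0 M := by
    rintro y ⟨z, hz, rfl⟩
    rw [mem_ball_zero_iff]
    exact hb z hz
  rw [stokes D (fun ρ hρ => Vl_hasDerivAt hε ρ hρ) (Vl'_cont hε)]
  refine le_trans ?_ (int_ball_l hM hε)
  apply mul_le_mul_of_nonneg_left _ (by positivity)
  have hwc : ContinuousOn (fun y : ℂ => wV (Vl ε) (Vl' ε) (‖y‖ ^ 2)) univ := by
    unfold wV
    have h3 : ContinuousOn (fun y : ℂ => ‖y‖ ^ 2) univ := by fun_prop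
    have hmaps : MapsTo (fun y : ℂ => ‖y‖ ^ 2) univ (Ici 0) := fun z _ => by
      simp only [mem_Ici]; positivity
    exact ((continuousOn_const.mul h3).mul ((Vl'_cont hε).comp h3 hmaps)).add
      (continuousOn_const.mul ((Vl_cont hε).comp h3 hmaps))
  have hint : IntegrableOn (fun y : ℂ => wV (Vl ε) (Vl' ε) (‖y‖ ^ 2)) (ball (0 : ℂ) M) :=
    ((hwc.mono (subset_univ _)).integrableOn_compact (isCompact_closedBall (0 : ℂ) M)).mono_set
      ball_subset_closedBall
  exact setIntegral_mono_set hint (Eventually.of_forall fun y => wVl hε (by positivity))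
    himg.eventuallyLE

theorem mean_sqrt_le {h : ℂ → ℂ} (H : HarmU h (fun _ => 0)) (h0 : h 0 = 0)
    (hgr : ∀ z : ℂ, ‖z‖ < 1 → ‖h z‖ ≤ ‖z‖ / (1 - ‖z‖) ^ 2) {r : ℝ} (hr0 : 0 < r) (hr1 : r < 1)
    {ε : ℝ} (hε : 0 < ε) :
    mean (fun x => √(‖h (pt r x)‖ ^ 2 + ε)) ≤ √ε + r / (1 - r) := by
  have D := har_scale H hr0 hr1
  set hr : ℂ → ℂ := fun z => h (r * z) with hhr
  have hR1 : 1 < 1 / r := D.R1
  set F : ℝ → ℝ → ℝ := fun t x => √(‖Ff hr (fun _ => 0) t x‖ ^ 2 + ε) with hF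
  set F' : ℝ → ℝ → ℝ := fun t x => Vl ε (‖Ff hr (fun _ => 0) t x‖ ^ 2) *
    ((starRingEnd ℂ) (Ff hr (fun _ => 0) t x) * Ft hr (fun _ => 0) t x).re with hF'
  have hVc := Vl_cont hε
  have hd : ∀ t ∈ Ioo (-(1 / r)) (1 / r), ∀ x, HasDerivAt (fun t => F t x) (F' t x) t := by
    intro t ht x
    have h1 := ((D.F_fst x ht).norm_sq.add_const ε).sqrt (by positivity)
    refine h1.congr_deriv ?_
    simp only [hF']
    rw [Vl_eq hε (by positivity), Complex.inner, mul_comm (Ft hr (fun _ => 0) t x)]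
    have h5 : 0 < √(‖Ff hr (fun _ => 0) t x‖ ^ 2 + ε) := Real.sqrt_pos.mpr (by positivity)
    field_simp
  have hFc : ∀ t ∈ Ioo (-(1 / r)) (1 / r), Continuous (F t) := by
    intro t ht
    have h1 : Continuous (Ff hr (fun _ => 0) t) := by
      have h2 : Continuous (fun x : ℝ => (t, x)) := by fun_prop
      exact D.cF.comp_continuous h2 (fun x => ⟨ht, mem_univ _⟩)
    exact ((h1.norm.pow 2).add continuous_const).sqrt
  have hF'c : ContinuousOn (fun p : ℝ × ℝ => F' p.1 p.2) (Ioo (-(1 / r)) (1 / r) ×ˢ univ) := by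
    simp only [hF']
    exact (Pool.Agent.HU26.cVF D hVc).mul
      (Pool.Agent.HU26.cre ((Pool.Agent.HU26.cconj D.cF).mul D.cFt))
  have hder : ∀ t ∈ Ioo (-(1 / r)) (1 / r), HasDerivAt (fun t => mean (F t)) (mean (F' t)) t :=
    fun t ht => hasDerivAt_mean ht hd hFc hF'c
  have hmem : ∀ t ∈ Icc (0:ℝ) 1, t ∈ Ioo (-(1 / r)) (1 / r) := by
    intro t ht
    have h1 : (0:ℝ) < 1 / r := by positivity
    exact ⟨by linarith [ht.1], by linarith [ht.2]⟩
  -- derivative bound
  have hbd : ∀ t ∈ Icc (0:ℝ) 1, mean (F' t) ≤ r / (1 - r * t) ^ 2 := by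
    intro t ht
    rcases eq_or_lt_of_le ht.1 with h | htpos
    · rw [← h]
      have : F' 0 = fun _ => 0 := by
        funext x
        simp only [hF', Ff, hm, pt, hhr]
        simp [h0]
      rw [this, mean_const]
      simp
      exact hr0.le
    · set s : ℝ := r * t with hs
      have hs0 : 0 < s := by positivity
      have hs1 : s < 1 := by nlinarith [ht.2]
      have Ds := har_scale H hs0 hs1
      have hMpos : 0 < s / (1 - s) ^ 2 := by
        have : 0 < 1 - s := by linarith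
        positivity
      have h1 := mean_Bf_le Ds hMpos hε ?_
      · have h2 : Bf (Vl ε) (fun z => h (s * z)) (fun z => (fun _ => (0:ℂ)) (s * z)) 1 =
            fun x => t * F' t x := by
          funext x
          have e1 : Ff (fun z => h (s * z)) (fun z => (fun _ => (0:ℂ)) (s * z)) 1 x =
              Ff hr (fun _ => 0) t x := by
            simp only [Ff, hm, hhr, mul_pt, hs]
            simp
          have e2 : Fx (fun z => h (s * z)) (fun z => (fun _ => (0:ℂ)) (s * z)) 1 x =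
              t * I * Ft hr (fun _ => 0) t x := by
            have hz1 : ‖(s:ℂ) * pt 1 x‖ < 1 := by
              rw [norm_mul, norm_pt, Complex.norm_real, Real.norm_of_nonneg hs0.le, abs_one, mul_one]
              exact hs1
            have hz2 : ‖(r:ℂ) * pt t x‖ < 1 := by
              rw [mul_pt, norm_pt, abs_of_pos (by positivity)]
              exact hs1
            have e3 : deriv (fun z => h (s * z)) (pt 1 x) = deriv h (s * pt 1 x) * s :=
              (scale_deriv H.hd hz1).deriv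
            have e4 : deriv hr (pt t x) = deriv h (r * pt t x) * r := (scale_deriv H.hd hz2).deriv
            simp only [Fx, Ft]
            rw [e3, e4]
            simp only [deriv_const, zero_mul, map_zero, add_zero, mul_pt, hs, mul_one]
            simp only [pt]
            push_cast
            ring
          have e5 : ∀ a b : ℂ, ((starRingEnd ℂ) a * (t * I * b)).im =
              t * ((starRingEnd ℂ) a * b).re := by
            intro a b
            have : (starRingEnd ℂ) a * (t * I * b) = (t:ℂ) * (I * ((starRingEnd ℂ) a * b)) := by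
              ring
            rw [this, Complex.im_ofReal_mul, Complex.I_mul_im]
          simp only [Bf, e1, e2, e5, hF']
          ring
        rw [h2, mean_const_mul] at h1
        have h3 : mean (F' t) ≤ (s / (1 - s) ^ 2) / t := by
          rw [le_div_iff₀ htpos, mul_comm]
          exact h1
        refine h3.trans (le_of_eq ?_)
        rw [hs]
        have : 0 < 1 - r * t := by linarith
        field_simp
      · intro z hz
        rw [mem_ball_zero_iff] at hz
        simp only [hm, map_zero, add_zero]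
        have hzn : ‖(s:ℂ) * z‖ = s * ‖z‖ := by
          rw [norm_mul, Complex.norm_real, Real.norm_of_nonneg hs0.le]
        have hlt : s * ‖z‖ < s := by nlinarith [norm_nonneg z]
        have h2 := hgr (s * z) (by rw [hzn]; linarith)
        rw [hzn] at h2
        refine h2.trans_lt ?_
        have h3 : 0 < 1 - s := by linarith
        have h4 : 1 - s < 1 - s * ‖z‖ := by linarith
        have h5 : 0 ≤ s * ‖z‖ := by positivity
        have h7 : 0 < 1 - s * ‖z‖ := by linarith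
        rw [div_lt_div_iff₀ (by positivity) (by positivity)]
        have h6 : (1 - s) ^ 2 < (1 - s * ‖z‖) ^ 2 := by nlinarith
        nlinarith [mul_nonneg h5 (sq_nonneg (1 - s))]
  -- integrate
  have hmain : mean (F 1) ≤ √ε + (1 / (1 - r * 1) - 1) := by
    have hpos : ∀ t ∈ Icc (0:ℝ) 1, 0 < 1 - r * t := by
      intro t ht
      nlinarith [ht.1, ht.2]
    have hBd : ∀ t ∈ Icc (0:ℝ) 1, HasDerivAt (fun t => √ε + (1 / (1 - r * t) - 1))
        (r / (1 - r * t) ^ 2) t := by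
      intro t ht
      have h1 : HasDerivAt (fun t : ℝ => 1 - r * t) (-r) t := by
        simpa using ((hasDerivAt_id t).const_mul r).const_sub 1
      have h2 := ((h1.inv (hpos t ht).ne').sub_const 1).const_add (√ε)
      have h3 : (fun t => √ε + (1 / (1 - r * t) - 1)) = fun t => √ε + ((1 - r * t)⁻¹ - 1) := by
        funext t; rw [one_div]
      rw [h3]
      refine h2.congr_deriv ?_
      ring
    have := image_le_of_deriv_right_le_deriv_boundary (f := fun t => mean (F t))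
      (f' := fun t => mean (F' t)) (a := 0) (b := 1) (B := fun t => √ε + (1 / (1 - r * t) - 1))
      (B' := fun t => r / (1 - r * t) ^ 2)
      (fun x hx => (hder x (hmem x hx)).continuousAt.continuousWithinAt)
      (fun x hx => (hder x (hmem x (Ico_subset_Icc_self hx))).hasDerivWithinAt)
      ?_
      (fun x hx => (hBd x hx).continuousAt.continuousWithinAt)
      (fun x hx => (hBd x (Ico_subset_Icc_self hx)).hasDerivWithinAt)
      (fun x hx => hbd x (Ico_subset_Icc_self hx))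
    · exact this (right_mem_Icc.2 zero_le_one)
    · have : F 0 = fun _ => √ε := by
        funext x
        simp only [hF, Ff, hm, pt, hhr]
        simp [h0]
      rw [this, mean_const]
      simp
  have hF1 : F 1 = fun x => √(‖h (pt r x)‖ ^ 2 + ε) := by
    funext x
    simp only [hF, Ff, hm, hhr, mul_pt]
    simp
  rw [hF1] at hmain
  refine hmain.trans (le_of_eq ?_)
  have : 0 < 1 - r := by linarith
  field_simp
  ring

theorem mean_norm_le {h : ℂ → ℂ} (H : HarmU h (fun _ => 0)) (h0 : h 0 = 0)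
    (hgr : ∀ z : ℂ, ‖z‖ < 1 → ‖h z‖ ≤ ‖z‖ / (1 - ‖z‖) ^ 2) {r : ℝ} (hr0 : 0 < r) (hr1 : r < 1) :
    mean (fun x => ‖h (pt r x)‖) ≤ r / (1 - r) := by
  have hc : Continuous (fun x => ‖h (pt r x)‖) := by
    have hptc : Continuous (fun x : ℝ => pt r x) := by unfold pt; fun_prop
    exact (H.hd.continuousOn.comp_continuous hptc
      (fun x => pt_mem_ball x ⟨by linarith, hr1⟩)).norm
  have h1 : ∀ ε : ℝ, 0 < ε → mean (fun x => ‖h (pt r x)‖) ≤ √ε + r / (1 - r) := by
    intro ε hε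
    refine le_trans (mean_mono hc ?_ ?_) (mean_sqrt_le H h0 hgr hr0 hr1 hε)
    · exact ((hc.pow 2).add continuous_const).sqrt
    · intro x
      exact Real.le_sqrt_of_sq_le (by linarith)
  have h2 : Tendsto (fun ε : ℝ => √ε + r / (1 - r)) (𝓝[>] 0) (𝓝 (√0 + r / (1 - r))) := by
    have : Continuous (fun ε : ℝ => √ε + r / (1 - r)) := by fun_prop
    exact (this.tendsto 0).mono_left nhdsWithin_le_nhds
  rw [Real.sqrt_zero, zero_add] at h2
  exact ge_of_tendsto h2 (by
    filter_upwards [self_mem_nhdsWithin] with ε hε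
    exact h1 ε hε)

/-- a map with dilatation `0` is analytic -/
theorem SH.zero {h g : ℂ → ℂ} (H : SH 0 h g) : HarmU h (fun _ => 0) := by
  have hgz : ∀ z ∈ ball (0:ℂ) 1, deriv g z = 0 := by
    intro z hz
    have h1 := H.dil z (by simpa using hz)
    rw [zero_mul] at h1
    exact norm_le_zero_iff.mp h1
  have hg : ∀ z ∈ ball (0:ℂ) 1, g z = 0 := by
    intro z hz
    have h1 := (convex_ball (0:ℂ) 1).is_const_of_fderivWithin_eq_zero (𝕜 := ℂ) H.gd ?_ hz
      (show (0:ℂ) ∈ ball (0:ℂ) 1 by simp)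
    · rw [h1, H.g0]
    · intro x hx
      rw [fderivWithin_of_isOpen isOpen_ball hx]
      ext
      simp [hgz x hx]
  refine ⟨H.hd, differentiableOn_const 0, ?_, ?_⟩
  · intro z hz
    rw [deriv_const, norm_zero]
    exact norm_pos_iff.mpr (H.toHarmU.h1ne (by simpa using hz))
  · intro z₁ h1 z₂ h2 heq
    apply H.inj h1 h2
    simp only [map_zero, add_zero] at heq
    simp only [heq, hg z₁ h1, hg z₂ h2]

theorem norm_dd {h : ℂ → ℂ} : ‖deriv (deriv h) 0‖ = 2 * ‖co h 2‖ := by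
  unfold co
  rw [iteratedDeriv_succ, iteratedDeriv_one]
  norm_num
  ring

theorem ordLe_zero : OrdLe 0 2 := by
  intro h g H
  have h1 := (bieb H.zero H.h0 H.h1).1
  rw [norm_dd]
  linarith

theorem GM_two {r : ℝ} (hr0 : 0 ≤ r) (hr1 : r < 1) : GM 2 r = r / (1 - r) ^ 2 := by
  unfold GM lg
  have h1 : 0 < 1 - r := by linarith
  have h2 : 0 < 1 + r := by linarith
  have h3 : Real.exp (2 * (Real.log (1 + r) - Real.log (1 - r))) = ((1 + r) / (1 - r)) ^ 2 := by
    rw [← Real.log_div h2.ne' h1.ne', show (2:ℝ) = ((2:ℕ):ℝ) by norm_num, Real.exp_nat_mul,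
      Real.exp_log (by positivity)]
  rw [h3]
  field_simp
  ring

/-- Littlewood's bound and Bieberbach, in the form used below -/
theorem analytic_coeff {h g : ℂ → ℂ} (H : SH 0 h g) {n : ℕ} (hn : 2 ≤ n) :
    ‖co h n‖ < (2 * (n:ℝ) ^ 2 + 1) / 3 := by
  have H0 := H.zero
  have hb := bieb H0 H.h0 H.h1
  rcases eq_or_lt_of_le hn with h2 | h3
  · rw [← h2]
    push_cast
    linarith [hb.1]
  rcases eq_or_lt_of_le (show 3 ≤ n from h3) with h4 | h5
  · rw [← h4]
    push_cast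
    linarith [hb.2]
  have hn4 : 4 ≤ n := h5
  have hgr : ∀ z : ℂ, ‖z‖ < 1 → ‖h z‖ ≤ ‖z‖ / (1 - ‖z‖) ^ 2 := by
    intro z hz
    rw [← GM_two (norm_nonneg z) hz]
    exact (H.growth (by norm_num) ordLe_zero hz).1
  have hnR : (4:ℝ) ≤ n := by exact_mod_cast hn4
  have hnp : (0:ℝ) < n := by linarith
  set r : ℝ := 1 - 1 / n with hr
  have hinv : 1 / (n:ℝ) ≤ 1 / 4 := one_div_le_one_div_of_le (by norm_num) hnR
  have hinv0 : 0 < 1 / (n:ℝ) := by positivity
  have hr0 : 0 < r := by rw [hr]; linarith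
  have hr1 : r < 1 := by rw [hr]; linarith
  have h6 := mean_norm_le H0 H.h0 hgr hr0 hr1
  have h7 := fc_nat H.hd (t := r) ⟨hr0, hr1⟩ n
  have h8 := norm_FC_le (fun x => h (pt r x)) (n:ℤ)
  rw [h7, norm_mul, norm_pow, Complex.norm_real, Real.norm_of_nonneg hr0.le] at h8
  have h9 : ‖co h n‖ * r ^ n ≤ r / (1 - r) := h8.trans h6
  have h10 : r / (1 - r) = r * n := by
    rw [hr]; field_simp; ring
  rw [h10] at h9
  -- divide by r
  obtain ⟨m, rfl⟩ : ∃ m, n = m + 1 := ⟨n - 1, by omega⟩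
  have h11 : ‖co h (m + 1)‖ * r ^ m ≤ ((m + 1 : ℕ) : ℝ) := by
    have : ‖co h (m + 1)‖ * r ^ m * r ≤ ((m + 1 : ℕ) : ℝ) * r := by
      calc ‖co h (m + 1)‖ * r ^ m * r = ‖co h (m + 1)‖ * r ^ (m + 1) := by ring
        _ ≤ r * ((m + 1 : ℕ) : ℝ) := h9
        _ = _ := by ring
    exact le_of_mul_le_mul_right this hr0
  -- lower bound for r^m
  have hm0 : (0:ℝ) < m := by
    have : 3 ≤ m := by omega
    have : (3:ℝ) ≤ m := by exact_mod_cast this
    linarith
  have h12 : r = (1 + 1 / (m:ℝ))⁻¹ := by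
    rw [hr]; push_cast; field_simp; ring
  have h13 : (1 + 1 / (m:ℝ)) ^ m ≤ Real.exp 1 := by
    have h14 : 1 + 1 / (m:ℝ) ≤ Real.exp (1 / m) := by
      have := Real.add_one_le_exp (1 / (m:ℝ)); linarith
    calc (1 + 1 / (m:ℝ)) ^ m ≤ (Real.exp (1 / m)) ^ m := by gcongr
      _ = Real.exp 1 := by rw [← Real.exp_nat_mul]; congr 1; field_simp
  have h15 : ‖co h (m + 1)‖ ≤ ((m + 1 : ℕ) : ℝ) * Real.exp 1 := by
    rw [h12, inv_pow] at h11
    have h16 : 0 < (1 + 1 / (m:ℝ)) ^ m := by positivity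
    have h17 : ‖co h (m + 1)‖ ≤ ((m + 1 : ℕ) : ℝ) * (1 + 1 / (m:ℝ)) ^ m := by
      rwa [← div_eq_mul_inv, div_le_iff₀ h16] at h11
    exact h17.trans (mul_le_mul_of_nonneg_left h13 (by positivity))
  refine h15.trans_lt ?_
  have h18 : Real.exp 1 < 2.7182818286 := Real.exp_one_lt_d9
  set N : ℝ := ((m + 1 : ℕ) : ℝ) with hN
  nlinarith

end Pool.Agent.HS85
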